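import Pool.Agent.H97.TV.Defs
import Pool.Agent.H87.SA2.LOCF
import Pool.Agent.H87.SA2.NPD
import Pool.Agent.H87.TX.RSC

/-! # [H97 TV ORV] The stable set of branches of a factor over `ℚ⟦t⟧` -/

namespace Pool.Agent.H97.TV

open Finset Polynomial Pool.Agent.H72.ES Pool.Agent.H87.SA Pool.Agent.H87.SA2 Pool.Agent.H87.AX
  Pool.Agent.H8.AW Pool.Agent.H52.AC Pool.Agent.H97.NW Pool.Agent.H34.AC Pool.Agent.H97.FB
  Pool.Agent.H97.FC Pool.Agent.H37.TU Pool.Agent.H97.TU Pool.Agent.H87.TW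

/-- `t ↦ (q T)^e` on power series, coefficients in `K` -/
noncomputable def psi (K : Type) [Field K] [CharZero K] (e : ℕ) (he : e ≠ 0) (q : ℕ) :
    PowerSeries ℚ →+* PowerSeries K :=
  (PowerSeries.rescale (q : K)).comp ((exr K e he).comp (PowerSeries.map (algebraMap ℚ K)))

theorem coeff_psi (K : Type) [Field K] [CharZero K] (e : ℕ) (he : e ≠ 0) (q : ℕ)
    (a : PowerSeries ℚ) (k : ℕ) : PowerSeries.coeff k (psi K e he q a) =
      (q : K) ^ k * if e ∣ k then algebraMap ℚ K (PowerSeries.coeff (k / e) a) else 0 := by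
  unfold psi
  rw [RingHom.comp_apply, RingHom.comp_apply, PowerSeries.coeff_rescale, coeff_exr]
  split_ifs with h
  · rw [PowerSeries.coeff_map]
  · rfl

theorem psi_X (K : Type) [Field K] [CharZero K] (e : ℕ) (he : e ≠ 0) (q : ℕ) :
    psi K e he q PowerSeries.X = (PowerSeries.C (q : K) * PowerSeries.X) ^ e := by
  refine PowerSeries.ext fun k => ?_
  rw [coeff_psi, mul_pow, ← map_pow, PowerSeries.coeff_C_mul, PowerSeries.coeff_X_pow,
    PowerSeries.coeff_X]
  by_cases h : k = e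
  · subst h
    rw [if_pos (dvd_refl k), if_pos (Nat.div_self (Nat.pos_of_ne_zero he)), if_pos rfl, map_one]
  · rw [if_neg h, mul_zero]
    by_cases h1 : e ∣ k
    · rw [if_pos h1]
      have h2 : k / e ≠ 1 := by
        intro h3
        apply h
        rw [← Nat.div_mul_cancel h1, h3, one_mul]
      rw [if_neg h2, map_zero, mul_zero]
    · rw [if_neg h1, mul_zero]

theorem psi_tq {e : ℕ} (he : e ≠ 0) (q : ℕ) :
    (psi ℂ e he q).comp (eval₂RingHom (Int.castRingHom (PowerSeries ℚ)) PowerSeries.X) =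
      tq e q := by
  refine Polynomial.ringHom_ext' ?_ ?_
  · exact RingHom.ext_int _ _
  · rw [RingHom.comp_apply, coe_eval₂RingHom, eval₂_X, psi_X]
    unfold tq
    rw [coe_eval₂RingHom, eval₂_X]

theorem psi_inj (K : Type) [Field K] [CharZero K] {e : ℕ} (he : e ≠ 0) {q : ℕ} (hq : q ≠ 0) :
    Function.Injective (psi K e he q) := by
  intro a b h
  refine PowerSeries.ext fun k => ?_
  have h1 := congrArg (PowerSeries.coeff (e * k)) h
  rw [coeff_psi, coeff_psi, if_pos (Dvd.intro k rfl), if_pos (Dvd.intro k rfl),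
    Nat.mul_div_cancel_left _ (Nat.pos_of_ne_zero he)] at h1
  have h2 : (q : K) ^ (e * k) ≠ 0 := pow_ne_zero _ (Nat.cast_ne_zero.2 hq)
  exact (algebraMap ℚ K).injective (mul_left_cancel₀ h2 h1)

/-- the action of `σ` and a rotation -/
noncomputable def actS (σ : AA →+* ℂ) (ξ : ℂ) : PowerSeries AA →+* PowerSeries ℂ :=
  (PowerSeries.rescale ξ).comp (PowerSeries.map σ)

theorem actS_psi (σ : AA →+* ℂ) {ξ : ℂ} {e : ℕ} (he : e ≠ 0) (q : ℕ) (hξ : ξ ^ e = 1) :
    (actS σ ξ).comp (psi AA e he q) = psi ℂ e he q := by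
  refine RingHom.ext fun a => PowerSeries.ext fun k => ?_
  unfold actS
  rw [RingHom.comp_apply, RingHom.comp_apply, PowerSeries.coeff_rescale, PowerSeries.coeff_map,
    coeff_psi, coeff_psi]
  by_cases h : e ∣ k
  · rw [if_pos h, if_pos h]
    obtain ⟨j, rfl⟩ := h
    rw [pow_mul, hξ, one_pow, one_mul, map_mul, map_pow, map_natCast]
    congr 1
    have e1 : σ.comp (algebraMap ℚ AA) = algebraMap ℚ ℂ := Subsingleton.elim _ _
    rw [← e1]
    rfl
  · rw [if_neg h, if_neg h, mul_zero, mul_zero, map_zero, mul_zero]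

/-- the identity of `AA` -/
theorem map_psi {e : ℕ} (he : e ≠ 0) (q : ℕ) :
    (PowerSeries.map (algebraMap AA ℂ)).comp (psi AA e he q) = psi ℂ e he q := by
  refine RingHom.ext fun a => PowerSeries.ext fun k => ?_
  rw [RingHom.comp_apply, PowerSeries.coeff_map, coeff_psi, coeff_psi]
  by_cases h : e ∣ k
  · rw [if_pos h, if_pos h, map_mul, map_pow, map_natCast]
    congr 1
  · rw [if_neg h, if_neg h, mul_zero, mul_zero, map_zero]

section

variable {g : ℤ[X][X]} {n : ℕ} (pd : PData g n)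

/-- the branches over `AA` -/
theorem exists_lift : ∃ ξ : Fin n → PowerSeries AA, ∀ u,
    PowerSeries.map (algebraMap AA ℂ) (ξ u) = pd.x u := by
  have h1 : ∀ u k, ∃ a : AA, (a : ℂ) = PowerSeries.coeff k (pd.x u) := fun u k => by
    have h2 : PowerSeries.coeff k (pd.x u) ∈ AA := by
      rw [mem_algebraicClosure_iff]
      exact ((pd.integral u k).tower_top (A := ℚ)).isAlgebraic
    exact ⟨⟨_, h2⟩, rfl⟩
  choose a ha using h1
  refine ⟨fun u => PowerSeries.mk (a u), fun u => PowerSeries.ext fun k => ?_⟩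
  rw [PowerSeries.coeff_map, PowerSeries.coeff_mk]
  exact ha u k

/-- equivariance of the values of polynomials over `ℚ⟦t⟧` at the branches -/
theorem eval_prmB (he : pd.e ≠ 0) {σ : AA →+* ℂ} {π : Equiv.Perm (Fin n)} (hπ : PrmB pd σ π) :
    ∃ ξ : ℂ, ξ ^ pd.e = 1 ∧ ∀ (G : (PowerSeries ℚ)[X]) (u : Fin n) (k : ℕ) (a : AA),
      (a : ℂ) = PowerSeries.coeff k ((G.map (psi ℂ pd.e he pd.q)).eval (pd.x u)) →
      ξ ^ k * σ a = PowerSeries.coeff k ((G.map (psi ℂ pd.e he pd.q)).eval (pd.x (π u))) := by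
  obtain ⟨ξ, hξ, h⟩ := hπ
  obtain ⟨w, hw⟩ := exists_lift pd
  refine ⟨ξ, hξ, fun G u k a ha => ?_⟩
  have h1 : actS σ ξ (w u) = pd.x (π u) := by
    refine PowerSeries.ext fun j => ?_
    unfold actS
    rw [RingHom.comp_apply, PowerSeries.coeff_rescale, PowerSeries.coeff_map]
    refine h u j _ ?_
    rw [← hw u, PowerSeries.coeff_map]
    rfl
  have h2 : (G.map (psi ℂ pd.e he pd.q)).eval (pd.x u) =
      PowerSeries.map (algebraMap AA ℂ) ((G.map (psi AA pd.e he pd.q)).eval (w u)) := by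
    rw [← Polynomial.eval_map_apply, Polynomial.map_map, map_psi, hw]
  have h3 : (G.map (psi ℂ pd.e he pd.q)).eval (pd.x (π u)) =
      actS σ ξ ((G.map (psi AA pd.e he pd.q)).eval (w u)) := by
    rw [← Polynomial.eval_map_apply, Polynomial.map_map, actS_psi σ he pd.q hξ, h1]
  rw [h2, PowerSeries.coeff_map] at ha
  rw [h3]
  unfold actS
  rw [RingHom.comp_apply, PowerSeries.coeff_rescale, PowerSeries.coeff_map]
  congr 2
  exact Subtype.ext ha

/-- the branches which are roots of `P` -/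
theorem exists_orb0 (he : pd.e ≠ 0) (P : (PowerSeries ℚ)[X]) (hP : P.Monic) (l : Fin n)
    (hl : (P.map (psi ℂ pd.e he pd.q)).eval (pd.x l) = 0) :
    ∃ S : Finset (Fin n), l ∈ S ∧ S.card ≤ P.natDegree ∧
      (∀ u, u ∈ S ↔ (P.map (psi ℂ pd.e he pd.q)).eval (pd.x u) = 0) ∧
      ∀ (σ : AA →+* ℂ) (π : Equiv.Perm (Fin n)), PrmB pd σ π → ∀ u ∈ S, π u ∈ S := by
  classical
  obtain ⟨S, hS⟩ : ∃ S : Finset (Fin n), ∀ u,
      u ∈ S ↔ (P.map (psi ℂ pd.e he pd.q)).eval (pd.x u) = 0 :=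
    ⟨univ.filter fun u => (P.map (psi ℂ pd.e he pd.q)).eval (pd.x u) = 0, fun u => by simp⟩
  refine ⟨S, (hS l).2 hl, ?_, hS, ?_⟩
  · have h1 : P.map (psi ℂ pd.e he pd.q) ≠ 0 := (hP.map _).ne_zero
    rw [← Finset.card_image_of_injective S pd.x_inj]
    calc (Finset.image pd.x S).card ≤ (P.map (psi ℂ pd.e he pd.q)).roots.toFinset.card := by
          apply Finset.card_le_card
          intro y hy
          obtain ⟨j, hj, rfl⟩ := Finset.mem_image.mp hy
          rw [Multiset.mem_toFinset, mem_roots h1]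
          exact (hS j).1 hj
      _ ≤ Multiset.card (P.map (psi ℂ pd.e he pd.q)).roots := Multiset.toFinset_card_le _
      _ ≤ (P.map (psi ℂ pd.e he pd.q)).natDegree := card_roots' _
      _ = P.natDegree := hP.natDegree_map _
  · intro σ π hπ u hu
    obtain ⟨ξ, hξ, h⟩ := eval_prmB pd he hπ
    rw [hS] at hu ⊢
    refine PowerSeries.ext fun k => ?_
    rw [← h P u k 0 (by rw [hu, map_zero]; rfl), map_zero, mul_zero, map_zero]

/-- `T ↦ T^(eN)` coefficient of the values -/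
theorem exists_rho (he : pd.e ≠ 0) (hq0 : pd.q ≠ 0) (P : (PowerSeries ℚ)[X]) (q : ℚ[X])
    (hq : Irreducible q) (φ : (LaurentSeries ℚ)[X])
    (hφ : P.map (HahnSeries.ofPowerSeries ℤ ℚ) ∣
      (q.map (algebraMap ℚ (LaurentSeries ℚ))).comp φ) :
    ∃ (N : ℕ) (G : (PowerSeries ℚ)[X]) (ρ : Fin n → ℂ), ∀ u,
      (P.map (psi ℂ pd.e he pd.q)).eval (pd.x u) = 0 → aeval (ρ u) q = 0 ∧
      (G.map (psi ℂ pd.e he pd.q)).eval (pd.x u) =
        (PowerSeries.C (pd.q : ℂ) * PowerSeries.X) ^ (pd.e * N) * PowerSeries.C (ρ u) := by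
  classical
  -- the extension of `psi` to the Laurent series
  have hg : Function.Injective (iL.comp (psi ℂ pd.e he pd.q)) := by
    intro a b hab
    exact psi_inj ℂ he hq0 (HahnSeries.ofPowerSeries_injective hab)
  obtain ⟨R, hR⟩ : ∃ R : LaurentSeries ℚ →+* LaurentSeries ℂ,
      R = IsFractionRing.lift (K := LaurentSeries ℚ) hg := ⟨_, rfl⟩
  have hRa : ∀ a : PowerSeries ℚ, R (HahnSeries.ofPowerSeries ℤ ℚ a) =
      iL (psi ℂ pd.e he pd.q a) := by
    intro a
    have h3 := IsFractionRing.lift_algebraMap (K := LaurentSeries ℚ) hg a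
    rw [LaurentSeries.coe_algebraMap] at h3
    rw [hR]
    exact h3
  -- clear the denominators
  obtain ⟨N, G, hG⟩ : ∃ (N : ℕ) (G : (PowerSeries ℚ)[X]),
      Polynomial.C (HahnSeries.ofPowerSeries ℤ ℚ (PowerSeries.X ^ N)) * φ =
        G.map (HahnSeries.ofPowerSeries ℤ ℚ) := by
    obtain ⟨b, ⟨N, hN⟩, hb⟩ := IsLocalization.integerNormalization_spec
      (Submonoid.powers (PowerSeries.X : PowerSeries ℚ)) φ
    refine ⟨N, IsLocalization.integerNormalization
      (Submonoid.powers (PowerSeries.X : PowerSeries ℚ)) φ, ?_⟩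
    have hN' : (PowerSeries.X : PowerSeries ℚ) ^ N = b := hN
    rw [hN']
    refine Eq.trans ?_ hb.symm
    ext1 i
    rw [coeff_C_mul, coeff_smul, Algebra.smul_def]
    rfl
  have hev : ∀ (H : (PowerSeries ℚ)[X]) (u : Fin n),
      ((H.map (HahnSeries.ofPowerSeries ℤ ℚ)).map R).eval (iL (pd.x u)) =
        iL ((H.map (psi ℂ pd.e he pd.q)).eval (pd.x u)) := by
    intro H u
    rw [Polynomial.map_map]
    have h1 : R.comp (HahnSeries.ofPowerSeries ℤ ℚ) = iL.comp (psi ℂ pd.e he pd.q) :=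
      RingHom.ext fun a => hRa a
    rw [h1, ← Polynomial.map_map, Polynomial.eval_map_apply]
  have hroot : ∀ u, (P.map (psi ℂ pd.e he pd.q)).eval (pd.x u) = 0 → ∃ β : ℂ, aeval β q = 0 ∧
      (φ.map R).eval (iL (pd.x u)) = iL (PowerSeries.C β) := by
    intro u hu
    obtain ⟨w, hw⟩ : ∃ w, w = (φ.map R).eval (iL (pd.x u)) := ⟨_, rfl⟩
    have h1 : (((q.map (algebraMap ℚ (LaurentSeries ℚ))).comp φ).map R).eval (iL (pd.x u)) = 0 := by
      obtain ⟨v, hv⟩ := hφ
      rw [hv, Polynomial.map_mul, eval_mul, hev, hu, map_zero, zero_mul]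
    rw [Polynomial.map_comp, eval_comp, ← hw, Polynomial.map_map] at h1
    have h2 : R.comp (algebraMap ℚ (LaurentSeries ℚ)) =
        (iL.comp (PowerSeries.C : ℂ →+* PowerSeries ℂ)).comp (algebraMap ℚ ℂ) :=
      Subsingleton.elim _ _
    rw [h2, ← Polynomial.map_map] at h1
    have h3 := IsAlgClosed.splits (q.map (algebraMap ℚ ℂ))
    have h4 := h3.eq_prod_roots
    rw [h4, Polynomial.map_mul, eval_mul, Polynomial.map_C, eval_C,
      Polynomial.map_multiset_prod, eval_multiset_prod, mul_eq_zero] at h1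
    have h5 : (iL.comp (PowerSeries.C : ℂ →+* PowerSeries ℂ))
        (q.map (algebraMap ℚ ℂ)).leadingCoeff ≠ 0 := by
      rw [Ne, map_eq_zero, leadingCoeff_eq_zero]
      exact (Polynomial.map_ne_zero_iff (algebraMap ℚ ℂ).injective).2 hq.ne_zero
    have h6 := h1.resolve_left h5
    rw [Multiset.prod_eq_zero_iff, Multiset.mem_map] at h6
    obtain ⟨p1, hp1, hp2⟩ := h6
    rw [Multiset.mem_map] at hp1
    obtain ⟨p2, hp3, rfl⟩ := hp1
    rw [Multiset.mem_map] at hp3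
    obtain ⟨β, hβ, rfl⟩ := hp3
    refine ⟨β, ?_, ?_⟩
    · have h7 := (mem_roots'.1 hβ).2
      rw [IsRoot, eval_map] at h7
      exact h7
    · rw [Polynomial.map_sub, Polynomial.map_X, Polynomial.map_C, eval_sub, eval_X, eval_C,
        sub_eq_zero, hw] at hp2
      exact hp2
  have hsel : ∀ u, ∃ β : ℂ, (P.map (psi ℂ pd.e he pd.q)).eval (pd.x u) = 0 → aeval β q = 0 ∧
      (φ.map R).eval (iL (pd.x u)) = iL (PowerSeries.C β) := by
    intro u
    by_cases hu : (P.map (psi ℂ pd.e he pd.q)).eval (pd.x u) = 0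
    · obtain ⟨β, h⟩ := hroot u hu
      exact ⟨β, fun _ => h⟩
    · exact ⟨0, fun h => absurd h hu⟩
  choose ρ hρ using hsel
  refine ⟨N, G, ρ, fun u hu => ⟨(hρ u hu).1, ?_⟩⟩
  have h1 : iL ((G.map (psi ℂ pd.e he pd.q)).eval (pd.x u)) =
      iL ((PowerSeries.C (pd.q : ℂ) * PowerSeries.X) ^ (pd.e * N) * PowerSeries.C (ρ u)) := by
    rw [← hev, ← hG, Polynomial.map_mul, eval_mul, Polynomial.map_C, eval_C, (hρ u hu).2, hRa,
      map_pow, psi_X, ← pow_mul, map_mul]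
  exact HahnSeries.ofPowerSeries_injective h1

/-- the stable set with the values in the roots of `q` -/
theorem exists_orb1 (he : pd.e ≠ 0) (hq0 : pd.q ≠ 0) (P : (PowerSeries ℚ)[X]) (hP : P.Monic)
    (l : Fin n) (hl : (P.map (psi ℂ pd.e he pd.q)).eval (pd.x l) = 0) (q : ℚ[X])
    (hq : Irreducible q) (φ : (LaurentSeries ℚ)[X])
    (hφ : P.map (HahnSeries.ofPowerSeries ℤ ℚ) ∣
      (q.map (algebraMap ℚ (LaurentSeries ℚ))).comp φ) :
    ∃ β : ℂ, aeval β q = 0 ∧ Nonempty (OrbD pd P.natDegree β l) := by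
  obtain ⟨S, hlS, hcard, hS, hgal⟩ := exists_orb0 pd he P hP l hl
  obtain ⟨N, G, ρ, hρ⟩ := exists_rho pd he hq0 P q hq φ hφ
  refine ⟨ρ l, (hρ l hl).1, ⟨⟨S, ρ, hlS, rfl, hcard, fun σ π hπ u hu => ?_⟩⟩⟩
  have hu' := hgal σ π hπ u hu
  refine ⟨hu', fun a ha => ?_⟩
  obtain ⟨ξ, hξ, h⟩ := eval_prmB pd he hπ
  obtain ⟨-, h1⟩ := hρ u ((hS u).1 hu)
  obtain ⟨-, h2⟩ := hρ (π u) ((hS _).1 hu')
  have hqC : (pd.q : ℂ) ≠ 0 := Nat.cast_ne_zero.2 hq0
  have hco : ∀ z : ℂ, PowerSeries.coeff (pd.e * N)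
      ((PowerSeries.C (pd.q : ℂ) * PowerSeries.X) ^ (pd.e * N) * PowerSeries.C z) =
        (pd.q : ℂ) ^ (pd.e * N) * z := by
    intro z
    rw [mul_pow, ← map_pow, mul_assoc, PowerSeries.coeff_C_mul, PowerSeries.coeff_X_pow_mul',
      if_pos le_rfl, Nat.sub_self, PowerSeries.coeff_zero_C]
  have h3 := h G u (pd.e * N) ((pd.q : AA) ^ (pd.e * N) * a) (by
    rw [h1, hco, ← ha]
    push_cast
    rfl)
  rw [h2, hco, pow_mul, hξ, one_pow, one_mul, map_mul, map_pow, map_natCast] at h3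
  exact mul_left_cancel₀ (pow_ne_zero _ hqC) h3

/-- the stable set without values -/
theorem exists_orb2 (he : pd.e ≠ 0) (P : (PowerSeries ℚ)[X]) (hP : P.Monic)
    (l : Fin n) (hl : (P.map (psi ℂ pd.e he pd.q)).eval (pd.x l) = 0) :
    Nonempty (OrbD pd P.natDegree 0 l) := by
  obtain ⟨S, hlS, hcard, hS, hgal⟩ := exists_orb0 pd he P hP l hl
  refine ⟨⟨S, fun _ => 0, hlS, rfl, hcard, fun σ π hπ u hu => ⟨hgal σ π hπ u hu, fun a ha => ?_⟩⟩⟩
  have h1 : a = 0 := Subtype.ext ha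
  rw [h1, map_zero]

end

/-- a real branch gives a real root of its factor -/
theorem real_of {g : ℤ[X][X]} {n : ℕ} (pd : PData g n) (he : pd.e ≠ 0) (hq0 : pd.q ≠ 0)
    (P : (PowerSeries ℚ)[X]) (l : Fin n)
    (hl : (P.map (psi ℂ pd.e he pd.q)).eval (pd.x l) = 0)
    (hre : (pd.x l).map (starRingEnd ℂ) = pd.x l) : RealRoot P := by
  have hqC : (pd.q : ℂ) ≠ 0 := Nat.cast_ne_zero.2 hq0
  have h4 : ∀ k, ((PowerSeries.coeff k (pd.x l)).re : ℂ) = PowerSeries.coeff k (pd.x l) := by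
    intro k
    rw [← Complex.conj_eq_iff_re]
    have h5 := congrArg (PowerSeries.coeff k) hre
    rw [PowerSeries.coeff_map] at h5
    exact h5
  refine ⟨pd.e, he, PowerSeries.mk fun k =>
    (1 / (pd.q : ℝ)) ^ k * (PowerSeries.coeff k (pd.x l)).re, ?_⟩
  have hinj : Function.Injective (PowerSeries.map Complex.ofRealHom) :=
    PowerSeries.map_injective _ Complex.ofRealHom.injective
  apply hinj
  rw [map_zero, ← Polynomial.eval_map_apply, Polynomial.map_map]
  have h7 : (PowerSeries.map Complex.ofRealHom).comp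
      ((exr ℝ pd.e he).comp (PowerSeries.map (algebraMap ℚ ℝ))) =
      (PowerSeries.rescale (1 / (pd.q : ℂ))).comp (psi ℂ pd.e he pd.q) := by
    refine RingHom.ext fun a => PowerSeries.ext fun k => ?_
    rw [RingHom.comp_apply, RingHom.comp_apply, RingHom.comp_apply, PowerSeries.coeff_map,
      coeff_exr, PowerSeries.coeff_rescale, coeff_psi, PowerSeries.coeff_map, ← mul_assoc,
      ← mul_pow, one_div_mul_cancel hqC, one_pow, one_mul]
    split_ifs with h
    · simp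
    · rw [map_zero]
  have h8 : PowerSeries.map Complex.ofRealHom (PowerSeries.mk fun k =>
      (1 / (pd.q : ℝ)) ^ k * (PowerSeries.coeff k (pd.x l)).re) =
      PowerSeries.rescale (1 / (pd.q : ℂ)) (pd.x l) := by
    refine PowerSeries.ext fun k => ?_
    rw [PowerSeries.coeff_map, PowerSeries.coeff_mk, PowerSeries.coeff_rescale, ← h4 k]
    rw [Complex.ofRealHom_eq_coe]
    push_cast
    rfl
  rw [h7, h8, ← Polynomial.map_map, Polynomial.eval_map_apply, hl, map_zero]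

/-- the factor of a real branch -/
theorem exists_orb {n m B : ℕ} {f : ℤ[X][X]} (Fm : FamB n m B f) (hmon : (rv n m f).Monic)
    (l : Fin n) (hre : (Fm.pd.x l).map (starRingEnd ℂ) = Fm.pd.x l) :
    ∃ P : (PowerSeries ℚ)[X], P.Monic ∧ Irreducible P ∧ P ∣ fQ (rv n m f) ∧ RealRoot P ∧
      Nonempty (OrbD Fm.pd P.natDegree 0 l) ∧ ∀ q : ℚ[X], Irreducible q →
      (∃ φ : (LaurentSeries ℚ)[X], P.map (HahnSeries.ofPowerSeries ℤ ℚ) ∣
        (q.map (algebraMap ℚ (LaurentSeries ℚ))).comp φ) →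
      ∃ β : ℂ, aeval β q = 0 ∧ Nonempty (OrbD Fm.pd P.natDegree β l) := by
  have he : Fm.pd.e ≠ 0 := by have := Fm.pd.e_pos; omega
  have hq0 : Fm.pd.q ≠ 0 := by have := Fm.pd.q_pos; omega
  have hx : ((fQ (rv n m f)).map (psi ℂ Fm.pd.e he Fm.pd.q)).eval (Fm.pd.x l) = 0 := by
    unfold fQ
    rw [Polynomial.map_map, psi_tq, Fm.pd.split, eval_prod]
    refine Finset.prod_eq_zero (Finset.mem_univ l) ?_
    rw [eval_sub, eval_X, eval_C, sub_self]
  obtain ⟨P, hP1, hP2, hP3, hP4⟩ := exists_factor (fQ (rv n m f)) (hmon.map _)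
    (psi ℂ Fm.pd.e he Fm.pd.q) _ hx
  exact ⟨P, hP1, hP2, hP3, real_of Fm.pd he hq0 P l hP4 hre, exists_orb2 Fm.pd he P hP1 l hP4,
    fun q hq ⟨φ, hφ⟩ => exists_orb1 Fm.pd he hq0 P hP1 l hP4 q hq φ hφ⟩

end Pool.Agent.H97.TV
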