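import Pool.Agent.H97.TV.NBV
import Pool.Agent.H97.TU.RLC
import Pool.Agent.H97.FB.FMB
import Pool.Agent.H97.FB.ANR

/-! # [H97 TV NPV] No point of large size over a fibre of an arbitrary family -/

namespace Pool.Agent.H97.TV

open Finset Polynomial Pool.Agent.H72.ES Pool.Agent.H87.SA Pool.Agent.H87.SA2 Pool.Agent.H87.AX
  Pool.Agent.H8.AW Pool.Agent.H52.AC Pool.Agent.H97.NW Pool.Agent.H34.AC Pool.Agent.H97.FB
  Pool.Agent.H97.FC Pool.Agent.H37.TU Pool.Agent.H97.TU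

/-- the local condition: for every real irreducible factor `P` of `F` over `ℚ⟦t⟧` either
`2 deg P < n`, or `ℚ((t))[X]/P` contains a field `ℚ[X]/q`, `q ∈ QQ`, of sufficient degree -/
def Loc (n : ℕ) (QQ : Finset ℚ[X]) (F : (PowerSeries ℚ)[X]) : Prop :=
  ∀ P : (PowerSeries ℚ)[X], P.Monic → Irreducible P → P ∣ F → RealRoot P →
    2 * P.natDegree < n ∨ ∃ q ∈ QQ, Irreducible q ∧
      (∃ φ : (LaurentSeries ℚ)[X], P.map (HahnSeries.ofPowerSeries ℤ ℚ) ∣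
        (q.map (algebraMap ℚ (LaurentSeries ℚ))).comp φ) ∧
      ∃ M, 1 ≤ M ∧ TU.Num M n q.natDegree P.natDegree

/-- a real root of the fibre lies on a real branch -/
theorem fam_realV (n m : ℕ) : ∃ C : ℕ, ∀ (B : ℕ) (f : ℤ[X][X]) (Fm : FamB n m B f) (a : ℕ),
    B ^ C ≤ a → ∀ l, starRingEnd ℂ (thA Fm.pd m a l) = thA Fm.pd m a l →
    (Fm.pd.x l).map (starRingEnd ℂ) = Fm.pd.x l := by
  obtain ⟨CT, hTR⟩ := thA_rts n m
  refine ⟨CT + 3 * n.factorial, fun B f Fm a ha l hl => ?_⟩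
  have hB2 := Fm.B2
  have h1 : B ^ CT ≤ a := (Nat.pow_le_pow_right (by omega) (by omega)).trans ha
  have h2 : B ^ (3 * n.factorial) ≤ a := (Nat.pow_le_pow_right (by omega) (by omega)).trans ha
  have ha1 : 1 ≤ a := (Nat.one_le_pow _ _ (by omega)).trans ha
  obtain ⟨-, hinj⟩ := hTR B f Fm a h1
  have hXA := fam_big n m Fm h2
  have hX0 := anv_XA_pos Fm.pd ha1
  obtain ⟨j, hj⟩ := perm_of Fm.pd (PowerSeries.map (starRingEnd ℂ)) (tq_conj' _ _) l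
  have h3 : thA Fm.pd m a j = starRingEnd ℂ (thA Fm.pd m a l) := by
    unfold thA
    rw [evC_eq_evz (one_div_pos.2 hX0).le (anv_grA Fm.pd ha1 hXA j),
      evC_eq_evz (one_div_pos.2 hX0).le (anv_grA Fm.pd ha1 hXA l), map_mul, map_pow,
      Complex.conj_natCast]
    congr 1
    have h4 := evT_conj ((1 / XA Fm.pd a : ℝ) : ℂ) (Fm.pd.x l)
    rw [Complex.conj_ofReal, hj] at h4
    exact h4
  rw [hl] at h3
  have h4 : j = l := hinj h3
  rw [h4] at hj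
  exact hj

/-- the degree of a factor -/
theorem fac_deg {n m : ℕ} {f : ℤ[X][X]} (hf : f.Monic) (hd : f.natDegree = n)
    {P : (PowerSeries ℚ)[X]} (hP : P ∣ fQ (rv n m f)) : P.natDegree ≤ n := by
  have hm : (fQ (rv n m f)).Monic := (rv_monic hf hd).map _
  refine (natDegree_le_of_dvd hP hm.ne_zero).trans ?_
  unfold fQ
  exact natDegree_map_le.trans (rv_natDegree hf hd).le

/-- no point of large size over a fibre with a large parameter -/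
theorem noPt (n m ν : ℕ) (hn : 3 ≤ n) (hm : 1 ≤ m) (hν : 4 ≤ ν) : ∃ (C : ℕ) (R1 : ℝ), 2 ≤ C ∧
    1 ≤ R1 ∧ ∀ QQ : Finset ℚ[X], ∃ A0 : ℕ, (QQ = ∅ → A0 = 0) ∧ ∀ (f : ℤ[X][X]) (B a : ℕ),
      f.Monic → f.natDegree = n → (∀ i, (f.coeff i).natDegree ≤ m * (n - i)) →
      Irreducible (f.map (mapRingHom (Int.castRingHom ℂ))) → Loc n QQ (fQ (rv n m f)) →
      (∀ i j, |(f.coeff i).coeff j| ≤ (B : ℤ)) → 2 ≤ B → B ^ C ≤ a → A0 ≤ a →
      Irreducible ((fa f a).map (Int.castRingHom ℚ)) →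
      ∀ P : Ptd ν, P.Thr C → R1 * Real.log a ≤ P.ell →
      (∀ θ : Fin n → ℂ, Rts (fa f a) θ → ∃ l, Nonempty (LbG P (v1 θ) l)) → False := by
  obtain ⟨R1, c1, hR1, hbadE, hbad⟩ := noBad n m ν (by omega) hm hν
  obtain ⟨c2, hfib⟩ := exists_famB n m (by omega) hm
  obtain ⟨CT, hTR⟩ := thA_rts n m
  obtain ⟨CR, hRR⟩ := fam_realV n m
  obtain ⟨C, hCd⟩ : ∃ C, C = c2 * (c1 + CT + CR) + c1 + cA ν + 2 := ⟨_, rfl⟩
  have hCa : c2 * (c1 + CT + CR) ≤ C := by rw [hCd]; omega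
  have hCb : c1 ≤ C := by rw [hCd]; omega
  have hCc : cA ν ≤ C := by rw [hCd]; omega
  have hC2 : 2 ≤ C := by rw [hCd]; omega
  refine ⟨C, R1, hC2, hR1, fun QQ => ?_⟩
  obtain ⟨A0, hA00, hA0⟩ := hbad QQ
  refine ⟨A0, hA00, ?_⟩
  intro f B a hfm hd hcd hfirr hloc hfB hB2 hBa hA hirr P hThr hbig hlab
  obtain ⟨b, hb, ⟨Fm⟩⟩ := hfib f B hB2 hfm hd hcd hfB hfirr
  have ha1 : 1 ≤ a := (Nat.one_le_pow _ _ (by omega)).trans hBa
  have hb2 := Fm.B2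
  have hbc : b ^ (c1 + CT + CR) ≤ a := by
    refine (Nat.pow_le_pow_left hb _).trans ?_
    rw [← pow_mul]
    exact (Nat.pow_le_pow_right (by omega) hCa).trans hBa
  have hbc1 : b ^ c1 ≤ a := (Nat.pow_le_pow_right (by omega) (by omega)).trans hbc
  have hbcT : b ^ CT ≤ a := (Nat.pow_le_pow_right (by omega) (by omega)).trans hbc
  have hbcR : b ^ CR ≤ a := (Nat.pow_le_pow_right (by omega) (by omega)).trans hbc
  have hR := hTR b _ Fm a hbcT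
  obtain ⟨l, hL⟩ := hlab _ hR
  have hre : (Fm.pd.x l).map (starRingEnd ℂ) = Fm.pd.x l := by
    refine hRR b _ Fm a hbcR l ?_
    obtain ⟨L⟩ := hL
    have hint := (gdG_one (Fm.monic.map (evalRingHom (a : ℤ))) hR).int l 0
    have hAA : thA Fm.pd m a l ∈ AA := by
      rw [mem_algebraicClosure_iff]
      exact (hint.tower_top (A := ℚ)).isAlgebraic
    exact lab_real hν P (P.thr_mono hCc hThr) L hAA
  obtain ⟨G, hG1, hG2, hG3, hG4, hG5, hG6⟩ := exists_orb Fm (rv_monic hfm hd) l hre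
  have hGn := fac_deg hfm hd hG3
  rcases hloc G hG1 hG2 hG3 hG4 with h1 | ⟨q, hq, hqi, hφ, hnum⟩
  · exact hbadE G.natDegree h1 ⟨a, b, f, Fm, l, hG5, P, hL, hirr, hbc1, P.thr_mono hCb hThr,
      hbig, ha1⟩
  · obtain ⟨β, hβ, hO⟩ := hG6 q hqi hφ
    have hqn : q.natDegree ≤ n := by
      obtain ⟨O⟩ := hO
      exact (deg_le_orb Fm.pd hqi hβ O).trans hGn
    have h1 := hA0 q hq hqi hqn G.natDegree hGn hnum β hβ
      ⟨a, b, f, Fm, l, hO, P, hL, hirr, hbc1, P.thr_mono hCb hThr, hbig, ha1⟩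
    exact absurd h1 (not_lt.2 hA)

end Pool.Agent.H97.TV
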