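import Pool.Agent.H97.TV.NBW
import Pool.Agent.H97.TV.NPV

/-! # [H97 TV NPW] No point of large size over a factor of a fibre of an arbitrary family -/

namespace Pool.Agent.H97.TV

open Finset Polynomial Pool.Agent.H72.ES Pool.Agent.H87.SA Pool.Agent.H87.SA2 Pool.Agent.H87.AX
  Pool.Agent.H8.AW Pool.Agent.H52.AC Pool.Agent.H97.NW Pool.Agent.H34.AC Pool.Agent.H97.FB
  Pool.Agent.H97.FC Pool.Agent.H37.TU Pool.Agent.H97.TU

/-- the roots of a monic factor are among the roots -/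
theorem rts_dvd {n : ℕ} {h g : ℤ[X]} {θ : Fin n → ℂ} (hθ : Rts h θ) (hg : g.Monic)
    (hgh : g ∣ h) : ∃ (k : ℕ) (ι : Fin k → Fin n), Function.Injective ι ∧
      Rts g fun x => θ (ι x) := by
  classical
  obtain ⟨hs, hinj⟩ := hθ
  have hd : g.map (Int.castRingHom ℂ) ∣ ∏ i, (X - C (θ i)) := by
    rw [← hs]
    exact Polynomial.map_dvd _ hgh
  have hP0 : ∏ i, (X - C (θ i)) ≠ 0 := prod_ne_zero_iff.2 fun u _ => X_sub_C_ne_zero _
  have hgm : (g.map (Int.castRingHom ℂ)).Monic := hg.map _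
  obtain ⟨S, hS⟩ : ∃ S : Finset (Fin n), S = univ.filter fun i =>
      eval (θ i) (g.map (Int.castRingHom ℂ)) = 0 := ⟨_, rfl⟩
  have hle : (g.map (Int.castRingHom ℂ)).roots ≤ univ.val.map θ := by
    have h2 := roots.le_of_dvd hP0 hd
    have h3 : ∏ i, (X - C (θ i)) = ((univ.val.map θ).map fun a => X - C a).prod := by
      rw [Multiset.map_map]
      rfl
    rw [h3, roots_multiset_prod_X_sub_C] at h2
    exact h2
  have hnd : (univ.val.map θ).Nodup := univ.nodup.map hinj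
  have hroots : (g.map (Int.castRingHom ℂ)).roots = S.val.map θ := by
    rw [(Multiset.nodup_of_le hle hnd).ext (S.nodup.map hinj)]
    intro z
    constructor
    · intro hz
      obtain ⟨i, -, hi⟩ := Multiset.mem_map.1 (Multiset.mem_of_le hle hz)
      have hiS : i ∈ S := by
        rw [hS, mem_filter, hi]
        exact ⟨mem_univ _, (mem_roots hgm.ne_zero).1 hz⟩
      exact Multiset.mem_map.2 ⟨i, hiS, hi⟩
    · intro hz
      obtain ⟨i, hi, rfl⟩ := Multiset.mem_map.1 hz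
      have hiS : i ∈ S := hi
      rw [hS, mem_filter] at hiS
      exact (mem_roots hgm.ne_zero).2 hiS.2
  refine ⟨S.card, fun x => S.orderEmbOfFin rfl x, (S.orderEmbOfFin rfl).injective, ?_,
    hinj.comp (S.orderEmbOfFin rfl).injective⟩
  have h1 := (IsAlgClosed.splits (g.map (Int.castRingHom ℂ))).eq_prod_roots_of_monic hgm
  rw [h1, hroots, Multiset.map_map]
  have h2 : (Multiset.map ((fun a => X - C a) ∘ θ) S.val).prod = ∏ i ∈ S, (X - C (θ i)) := rfl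
  rw [h2]
  have h3 : S = univ.map (S.orderEmbOfFin rfl).toEmbedding := by
    ext i
    rw [mem_map]
    have h4 := S.range_orderEmbOfFin rfl
    constructor
    · intro hi
      rw [← mem_coe, ← h4] at hi
      obtain ⟨x, hx⟩ := hi
      exact ⟨x, mem_univ _, hx⟩
    · rintro ⟨x, -, rfl⟩
      exact S.orderEmbOfFin_mem rfl x
  conv_lhs => rw [h3]
  rw [prod_map]
  rfl

/-- labels by the roots of a factor -/
theorem lbG_fac {n k ν : ℕ} {P : Ptd ν} {θ : Fin n → ℂ} (ι : Fin k → Fin n) {l : Fin k}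
    (h : Nonempty (LbG P (v1 fun x => θ (ι x)) l)) : Nonempty (LbG P (v1 θ) (ι l)) := by
  obtain ⟨L⟩ := h
  exact ⟨⟨L.S, fun i => ι (L.th i), L.mem, by rw [L.near], L.gal, fun ζ hζ i hi j hj => by
    obtain ⟨h1, h2⟩ := L.rot ζ hζ i hi j hj
    exact ⟨h1, by rw [h2]⟩⟩⟩

/-- no point of large size over a factor of a fibre with a large parameter -/
theorem noPtW (n m ν : ℕ) (hn : 3 ≤ n) (hm : 1 ≤ m) (hν : 4 ≤ ν) : ∃ (C : ℕ) (R1 : ℝ), 2 ≤ C ∧
    1 ≤ R1 ∧ ∀ QQ : Finset ℚ[X], ∃ A0 : ℕ, (QQ = ∅ → A0 = 0) ∧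
      ∀ (f : ℤ[X][X]) (B a : ℕ) (g : ℤ[X]),
      f.Monic → f.natDegree = n → (∀ i, (f.coeff i).natDegree ≤ m * (n - i)) →
      Irreducible (f.map (mapRingHom (Int.castRingHom ℂ))) → Loc n QQ (fQ (rv n m f)) →
      (∀ i j, |(f.coeff i).coeff j| ≤ (B : ℤ)) → 2 ≤ B → B ^ C ≤ a → A0 ≤ a →
      g.Monic → g ∣ fa f a →
      ∀ P : Ptd ν, P.Thr C → R1 * Real.log a ≤ P.ell →
      (∀ (k : ℕ) (θ : Fin k → ℂ), Rts g θ → ∃ l, Nonempty (LbG P (v1 θ) l)) → False := by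
  obtain ⟨R1, c1, hR1, hbadE, hbad⟩ := noBadW n m ν (by omega) hm hν
  obtain ⟨c2, hfib⟩ := exists_famB n m (by omega) hm
  obtain ⟨CT, hTR⟩ := thA_rts n m
  obtain ⟨CR, hRR⟩ := fam_realV n m
  obtain ⟨C, hCd⟩ : ∃ C, C = c2 * (c1 + CT + CR) + c1 + cA ν + 2 := ⟨_, rfl⟩
  have hCa : c2 * (c1 + CT + CR) ≤ C := by rw [hCd]; omega
  have hCb : c1 ≤ C := by rw [hCd]; omega
  have hCc : cA ν ≤ C := by rw [hCd]; omega
  have hC2 : 2 ≤ C := by rw [hCd]; omega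
  refine ⟨C, R1, hC2, hR1, fun QQ => ?_⟩
  obtain ⟨A0, hA00, hA0⟩ := hbad QQ
  refine ⟨A0, hA00, ?_⟩
  intro f B a g hfm hd hcd hfirr hloc hfB hB2 hBa hA hgm hgd P hThr hbig hlab
  obtain ⟨b, hb, ⟨Fm⟩⟩ := hfib f B hB2 hfm hd hcd hfB hfirr
  have ha1 : 1 ≤ a := (Nat.one_le_pow _ _ (by omega)).trans hBa
  have hb2 := Fm.B2
  have hbc : b ^ (c1 + CT + CR) ≤ a := by
    refine (Nat.pow_le_pow_left hb _).trans ?_
    rw [← pow_mul]
    exact (Nat.pow_le_pow_right (by omega) hCa).trans hBa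
  have hbc1 : b ^ c1 ≤ a := (Nat.pow_le_pow_right (by omega) (by omega)).trans hbc
  have hbcT : b ^ CT ≤ a := (Nat.pow_le_pow_right (by omega) (by omega)).trans hbc
  have hbcR : b ^ CR ≤ a := (Nat.pow_le_pow_right (by omega) (by omega)).trans hbc
  have hR := hTR b _ Fm a hbcT
  obtain ⟨l, hL⟩ : ∃ l, Nonempty (LbG P (v1 (thA Fm.pd m a)) l) := by
    obtain ⟨k, ι, -, hι⟩ := rts_dvd hR hgm hgd
    obtain ⟨l, hl⟩ := hlab k _ hι
    exact ⟨ι l, lbG_fac ι hl⟩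
  have hre : (Fm.pd.x l).map (starRingEnd ℂ) = Fm.pd.x l := by
    refine hRR b _ Fm a hbcR l ?_
    obtain ⟨L⟩ := hL
    have hint := (gdG_one (Fm.monic.map (evalRingHom (a : ℤ))) hR).int l 0
    have hAA : thA Fm.pd m a l ∈ AA := by
      rw [mem_algebraicClosure_iff]
      exact (hint.tower_top (A := ℚ)).isAlgebraic
    exact lab_real hν P (P.thr_mono hCc hThr) L hAA
  obtain ⟨G, hG1, hG2, hG3, hG4, hG5, hG6⟩ := exists_orb Fm (rv_monic hfm hd) l hre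
  have hGn := fac_deg hfm hd hG3
  rcases hloc G hG1 hG2 hG3 hG4 with h1 | ⟨q, hq, hqi, hφ, hnum⟩
  · exact hbadE G.natDegree h1 ⟨a, b, f, Fm, l, hG5, P, hL, hbc1, P.thr_mono hCb hThr,
      hbig, ha1⟩
  · obtain ⟨β, hβ, hO⟩ := hG6 q hqi hφ
    have hqn : q.natDegree ≤ n := by
      obtain ⟨O⟩ := hO
      exact (deg_le_orb Fm.pd hqi hβ O).trans hGn
    have h1 := hA0 q hq hqi hqn G.natDegree hGn hnum β hβ
      ⟨a, b, f, Fm, l, hO, P, hL, hbc1, P.thr_mono hCb hThr, hbig, ha1⟩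
    exact absurd h1 (not_lt.2 hA)

end Pool.Agent.H97.TV
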