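import Pool.Agent.H98.TY.Defs
import Pool.Agent.H87.TX.RSC

/-! # [H97 TV EQB] The branches of the twisted curve: rotations

The set of the branches is stable under the rotations, so `(i, τ)` is a branch iff `(0, τ)` is one. -/

namespace Pool.Agent.H97.TV

open Finset Polynomial Pool.Agent.H72.ES Pool.Agent.H87.SA2 Pool.Agent.H8.AW Pool.Agent.H52.AC
  Pool.Agent.H97.NW Pool.Agent.H97.FB Pool.Agent.H97.GA Pool.Agent.H87.TW Pool.Agent.H87.TX
  Pool.Agent.H98.TY

/-- a rotation maps roots to roots -/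
theorem rot_root {N q : ℕ} {ζ : ℂ} (hζ : ζ ^ N = 1) (P : ℤ[X][X]) (z : PowerSeries ℂ)
    (hz : eval z (P.map (tq N q)) = 0) :
    eval (PowerSeries.rescale ζ z) (P.map (tq N q)) = 0 := by
  have hcomp : (PowerSeries.rescale ζ).comp (tq N q) = tq N q := by
    apply Polynomial.ringHom_ext
    · intro a
      simp [tq]
    · rw [RingHom.comp_apply, tq, coe_eval₂RingHom,
        eval₂_X, map_pow, map_mul, PowerSeries.rescale_X]
      have h1 : PowerSeries.rescale ζ (PowerSeries.C (q : ℂ)) = PowerSeries.C (q : ℂ) := by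
        rw [map_natCast PowerSeries.C, map_natCast]
      rw [h1, mul_pow, mul_pow, mul_pow, ← map_pow PowerSeries.C ζ, hζ, map_one, one_mul]
  have h2 : (P.map (tq N q)).map (PowerSeries.rescale ζ) = P.map (tq N q) := by
    rw [Polynomial.map_map, hcomp]
  rw [← h2, eval_map, eval₂_hom, hz, map_zero]

theorem mem_rot {n m q mu e D : ℕ} (hem : 1 ≤ e * m) (hm : 1 ≤ m) (W : Fin n → ℂ)
    (x : Fin n → PowerSeries ℂ) (hZ : Function.Injective (ZV e m q mu W x)) (P : ℤ[X][X])
    (j : Fin D → Fin m × Equiv.Perm (Fin n))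
    (hs : P.map (tq (e * m) q) = ∏ k, (X - C (ZV e m q mu W x (j k)))) (i : Fin m)
    (τ : Equiv.Perm (Fin n)) : (∃ k, j k = (i, τ)) ↔ ∃ k, j k = (⟨0, hm⟩, τ) := by
  have hroot : ∀ p, eval (ZV e m q mu W x p) (P.map (tq (e * m) q)) = 0 ↔ ∃ k, j k = p := by
    intro p
    rw [hs, eval_prod, prod_eq_zero_iff]
    constructor
    · rintro ⟨k, -, hk⟩
      rw [eval_sub, eval_X, eval_C, sub_eq_zero] at hk
      exact ⟨k, (hZ hk).symm⟩
    · rintro ⟨k, rfl⟩
      exact ⟨k, mem_univ _, by rw [eval_sub, eval_X, eval_C, sub_self]⟩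
  have hprim : IsPrimitiveRoot (rou (e * m)) (e * m) := by
    unfold rou
    exact Complex.isPrimitiveRoot_exp _ (by omega)
  have hω0 : rou (e * m) ≠ 0 := hprim.ne_zero (by omega)
  have hω : ∀ l : ℕ, (rou (e * m) ^ l) ^ (e * m) = 1 := by
    intro l
    rw [← pow_mul, mul_comm l (e * m), pow_mul, hprim.pow_eq_one, one_pow]
  have h0 : ZV e m q mu W x (⟨0, hm⟩, τ) = VV e m q mu W x τ := by
    unfold ZV
    rw [pow_zero, PowerSeries.rescale_one]
    rfl
  have hi : ZV e m q mu W x (i, τ) =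
      PowerSeries.rescale (rou (e * m) ^ (i : ℕ)) (ZV e m q mu W x (⟨0, hm⟩, τ)) := by
    rw [h0]
    rfl
  have hinv : PowerSeries.rescale ((rou (e * m) ^ (i : ℕ))⁻¹) (ZV e m q mu W x (i, τ)) =
      ZV e m q mu W x (⟨0, hm⟩, τ) := by
    rw [hi, PowerSeries.rescale_rescale, mul_inv_cancel₀ (pow_ne_zero _ hω0),
      PowerSeries.rescale_one]
    rfl
  rw [← hroot, ← hroot]
  constructor
  · intro h
    rw [← hinv]
    refine rot_root ?_ P _ h
    rw [inv_pow, hω, inv_one]
  · intro h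
    rw [hi]
    exact rot_root (hω _) P _ h

end Pool.Agent.H97.TV
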