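import Pool.Agent.H97.TV.EQA
import Pool.Agent.H97.TV.EQB
import Pool.Agent.H98.TY.FSV
import Pool.Agent.H87.TW.LAU

/-! # [H97 TV EQC] Equidistribution of the labels of the twisted curve

Every root of the fibre and every branch of the family: exactly the `n`-th part of the branches of the
twisted curve carries a permutation with `τ u = w0`. -/

namespace Pool.Agent.H97.TV

open Finset Polynomial Pool.Agent.H72.ES Pool.Agent.H87.SA2 Pool.Agent.H8.AW Pool.Agent.H52.AC
  Pool.Agent.H97.NW Pool.Agent.H97.FB Pool.Agent.H97.GA Pool.Agent.H87.TW Pool.Agent.H87.TX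
  Pool.Agent.H98.TY

/-- constants -/
noncomputable def cL : ℂ →+* LaurentSeries ℂ := iL.comp PowerSeries.C

/-- `X ↦ 1/t` over `ℂ` -/
noncomputable def phC (e q : ℕ) : ℂ[X] →+* LaurentSeries ℂ := eval₂RingHom cL (sL e q)⁻¹

theorem phC_inj {e q : ℕ} (he : 1 ≤ e) (hq : 1 ≤ q) : Function.Injective (phC e q) := by
  rw [injective_iff_map_eq_zero]
  intro p hp
  let _ : Invertible (sL e q)⁻¹ := invertibleOfNonzero (inv_ne_zero (sL_ne hq))
  have h := eval₂_reverse_mul_pow cL (sL e q)⁻¹ p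
  rw [invOf_eq_inv, inv_inv] at h
  have h1 : eval₂ cL (sL e q)⁻¹ p = 0 := hp
  rw [h1] at h
  have h2 : eval₂ cL (sL e q) p.reverse = 0 := by
    rcases mul_eq_zero.mp h with h3 | h3
    · exact h3
    · exact absurd h3 (pow_ne_zero _ (inv_ne_zero (sL_ne hq)))
  have h3 : iL (eval₂ PowerSeries.C ((PowerSeries.C (q : ℂ) * PowerSeries.X) ^ e) p.reverse) =
      eval₂ cL (sL e q) p.reverse := by
    rw [hom_eval₂]
    rfl
  rw [h2, map_eq_zero_iff iL iL_inj] at h3
  have h4 := congrArg (PowerSeries.constantCoeff (R := ℂ)) h3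
  rw [hom_eval₂, map_zero, map_pow, map_mul, PowerSeries.constantCoeff_X, mul_zero,
    zero_pow (by omega)] at h4
  have h5 : (PowerSeries.constantCoeff (R := ℂ)).comp PowerSeries.C = RingHom.id ℂ := by
    ext a
    simp
  rw [h5, eval₂_id, ← coeff_zero_eq_eval_zero, coeff_zero_reverse] at h4
  exact leadingCoeff_eq_zero.1 h4

private theorem eqc_shift {e m q mu : ℕ} (hm : 1 ≤ m) (hq : 1 ≤ q) :
    (mu : LaurentSeries ℂ) * (sL e q)⁻¹ =
      (sL (e * m) q)⁻¹ * iL (PowerSeries.C (mu : ℂ) *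
        (PowerSeries.C (q : ℂ) * PowerSeries.X) ^ (e * (m - 1))) := by
  have h1 : sL (e * m) q =
      iL ((PowerSeries.C (q : ℂ) * PowerSeries.X) ^ (e * (m - 1))) * sL e q := by
    unfold sL
    rw [← map_mul, ← pow_add, ← Nat.mul_succ, Nat.succ_eq_add_one, Nat.sub_add_cancel hm]
  have h2 : sL e q ≠ 0 := sL_ne hq
  have h3 : sL (e * m) q ≠ 0 := sL_ne hq
  have h4 : iL (PowerSeries.C (mu : ℂ)) = (mu : LaurentSeries ℂ) := by
    rw [map_natCast, map_natCast]
  rw [map_mul, h4, eq_inv_mul_iff_mul_eq₀ h3, h1]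
  field_simp

theorem eqC {n m B : ℕ} {f : ℤ[X][X]} (Fm : FamB n m B f) (mu : ℕ) (W : Fin n → ℂ)
    (hZ : Function.Injective (ZV Fm.pd.e m Fm.pd.q mu W Fm.pd.x)) (P : ℤ[X][X]) {D : ℕ}
    (j : Fin D → Fin m × Equiv.Perm (Fin n)) (hj : Function.Injective j)
    (hs : P.map (tq (Fm.pd.e * m) Fm.pd.q) =
      ∏ k, (X - C (ZV Fm.pd.e m Fm.pd.q mu W Fm.pd.x (j k)))) (u w0 : Fin n) :
    n * (univ.filter fun k => (j k).2 u = w0).card = D := by
  classical
  have hq1 : 1 ≤ Fm.pd.q := Fm.pd.q_pos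
  have he1 : 1 ≤ Fm.pd.e := Fm.pd.e_pos
  have hm1 : 1 ≤ m := Fm.m1
  have hem1 : 1 ≤ Fm.pd.e * m := Nat.mul_pos he1 hm1
  have hp := fam_splitV Fm.monic Fm.deg Fm.cdeg Fm.pd
  have hrot := mem_rot hem1 hm1 W Fm.pd.x hZ P j hs
  have hxinj := Fm.pd.x_inj
  generalize Fm.pd.e = e at *
  generalize Fm.pd.q = q at *
  generalize Fm.pd.x = x at *
  -- the field of rational functions
  obtain ⟨ψ, hψ⟩ : ∃ ψ : FractionRing ℂ[X] →+* LaurentSeries ℂ, ∀ p,
      ψ (algebraMap ℂ[X] (FractionRing ℂ[X]) p) = phC e q p :=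
    ⟨IsFractionRing.lift (phC_inj he1 hq1), fun p => IsFractionRing.lift_algebraMap _ _⟩
  let _ : Algebra (FractionRing ℂ[X]) (LaurentSeries ℂ) := ψ.toAlgebra
  have hψa : algebraMap (FractionRing ℂ[X]) (LaurentSeries ℂ) = ψ := rfl
  have hirr : Irreducible ((f.map (mapRingHom (Int.castRingHom ℂ))).map
      (algebraMap ℂ[X] (FractionRing ℂ[X]))) :=
    ((Fm.monic.map _).irreducible_iff_irreducible_map_fraction_map).1 Fm.irr
  have hC : ∀ a : ℂ, phC e q (C a) = iL (PowerSeries.C a) := by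
    intro a
    unfold phC
    rw [coe_eval₂RingHom, eval₂_C]
    rfl
  have hX : phC e q X = (sL e q)⁻¹ := by
    unfold phC
    rw [coe_eval₂RingHom, eval₂_X]
  -- the splitting over the Laurent series
  have hsp : ((f.map (mapRingHom (Int.castRingHom ℂ))).map
      (algebraMap ℂ[X] (FractionRing ℂ[X]))).map
      (algebraMap (FractionRing ℂ[X]) (LaurentSeries ℂ)) =
      ∏ u, (X - C ((sL (e * m) q)⁻¹ * iL (x u))) := by
    rw [← hp, hψa, Polynomial.map_map, Polynomial.map_map]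
    congr 1
    apply Polynomial.ringHom_ext
    · intro c
      simp only [RingHom.comp_apply, hψ, coe_mapRingHom]
      simp
    · simp only [RingHom.comp_apply, coe_mapRingHom, map_X]
      rw [hψ, hX]
      unfold phL
      rw [coe_eval₂RingHom, eval₂_X]
  have hs0 : (sL (e * m) q)⁻¹ ≠ 0 := inv_ne_zero (sL_ne hq1)
  have hzinj : Function.Injective fun u => (sL (e * m) q)⁻¹ * iL (x u) := fun u u' h =>
    hxinj (iL_inj (mul_left_cancel₀ hs0 h))
  -- the twisted sum
  obtain ⟨w, hw⟩ : ∃ w : Fin n → FractionRing ℂ[X],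
      w = fun u => algebraMap ℂ[X] (FractionRing ℂ[X]) (C (W u)) := ⟨_, rfl⟩
  obtain ⟨c, hc⟩ : ∃ c : FractionRing ℂ[X],
      c = algebraMap ℂ[X] (FractionRing ℂ[X]) ((mu : ℂ[X]) * X) := ⟨_, rfl⟩
  have hcψ : ψ c = (mu : LaurentSeries ℂ) * (sL e q)⁻¹ := by
    rw [hc, hψ, map_mul, map_natCast, hX]
  have hy : ∀ τ, ySum (fun u => (sL (e * m) q)⁻¹ * iL (x u)) w c τ =
      (sL (e * m) q)⁻¹ * iL (ZV e m q mu W x (⟨0, hm1⟩, τ)) := by
    intro τ
    have h0 : ZV e m q mu W x (⟨0, hm1⟩, τ) = VV e m q mu W x τ := by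
      unfold ZV
      rw [pow_zero, PowerSeries.rescale_one]
      rfl
    rw [h0]
    unfold ySum H98.TY.VV Zt
    rw [hψa, hcψ, eqc_shift hm1 hq1, map_add, mul_add, map_sum, mul_sum]
    congr 1
    refine sum_congr rfl fun v _ => ?_
    rw [hw]
    simp only
    rw [hψ, hC, map_mul]
    ring
  -- the polynomial
  obtain ⟨r, hr⟩ : ∃ r : FractionRing ℂ[X], ψ r = sL (e * m) q := by
    refine ⟨(algebraMap ℂ[X] (FractionRing ℂ[X]) X)⁻¹ ^ m, ?_⟩
    rw [map_pow, map_inv₀, hψ, hX, inv_inv]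
    unfold sL
    rw [← map_pow, ← pow_mul]
  obtain ⟨G, hG⟩ : ∃ G : (FractionRing ℂ[X])[X], G = (P.map
    (eval₂RingHom (Int.castRingHom (FractionRing ℂ[X])) r)).comp (C r * X) := ⟨_, rfl⟩
  have hGe : ∀ z : PowerSeries ℂ, aeval ((sL (e * m) q)⁻¹ * iL z) G =
      iL (eval z (P.map (tq (e * m) q))) := by
    intro z
    have h1 : ψ.comp (eval₂RingHom (Int.castRingHom (FractionRing ℂ[X])) r) =
        iL.comp (tq (e * m) q) := by
      apply Polynomial.ringHom_ext
      · intro c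
        simp
      · rw [RingHom.comp_apply, RingHom.comp_apply, tq, coe_eval₂RingHom, coe_eval₂RingHom,
          eval₂_X, eval₂_X, hr]
        rfl
    rw [hG, aeval_def, hψa, ← eval_map, Polynomial.map_comp, Polynomial.map_map, h1,
      Polynomial.map_mul, map_C, map_X, hr, eval_comp, eval_mul, eval_C, eval_X,
      mul_inv_cancel_left₀ (sL_ne hq1), ← Polynomial.map_map, eval_map, eval₂_hom]
  have hroot : ∀ p, eval (ZV e m q mu W x p) (P.map (tq (e * m) q)) = 0 ↔ ∃ k, j k = p := by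
    intro p
    rw [hs, eval_prod, prod_eq_zero_iff]
    constructor
    · rintro ⟨k, -, hk⟩
      rw [eval_sub, eval_X, eval_C, sub_eq_zero] at hk
      exact ⟨k, (hZ hk).symm⟩
    · rintro ⟨k, rfl⟩
      exact ⟨k, mem_univ _, by rw [eval_sub, eval_X, eval_C, sub_self]⟩
  obtain ⟨J, hJ⟩ : ∃ J : Finset (Equiv.Perm (Fin n)), ∀ τ, τ ∈ J ↔ ∃ k, j k = (⟨0, hm1⟩, τ) :=
    ⟨univ.filter fun τ => ∃ k, j k = (⟨0, hm1⟩, τ), fun τ => by
      rw [mem_filter]
      exact and_iff_right (mem_univ _)⟩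
  have hJ' : ∀ τ, τ ∈ J ↔ aeval (ySum (fun u => (sL (e * m) q)⁻¹ * iL (x u)) w c τ) G = 0 := by
    intro τ
    rw [hJ, hy, hGe, map_eq_zero_iff iL iL_inj, hroot]
  have hpart := eq_part hirr _ hsp hzinj w c G J hJ' u w0
  -- the counts
  have himg : univ.image j = univ ×ˢ J := by
    ext p
    rw [mem_image, mem_product]
    have h1 := hrot p.1 p.2
    constructor
    · rintro ⟨k, -, hk⟩
      exact ⟨mem_univ _, (hJ _).2 (h1.1 ⟨k, hk⟩)⟩
    · rintro ⟨-, h2⟩
      obtain ⟨k, hk⟩ := h1.2 ((hJ _).1 h2)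
      exact ⟨k, mem_univ _, hk⟩
  have hD : D = m * J.card := by
    have h1 := card_image_of_injective univ hj
    rw [himg, card_product, card_univ, card_univ, Fintype.card_fin, Fintype.card_fin] at h1
    exact h1.symm
  have hk : (univ.filter fun k => (j k).2 u = w0).card =
      m * (J.filter fun τ => τ u = w0).card := by
    have h1 : (univ.filter fun k => (j k).2 u = w0).image j =
        univ ×ˢ (J.filter fun τ => τ u = w0) := by
      ext p
      rw [mem_image, mem_product, mem_filter]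
      constructor
      · rintro ⟨k, hk, rfl⟩
        have h2 : j k ∈ univ.image j := mem_image_of_mem _ (mem_univ _)
        rw [himg, mem_product] at h2
        exact ⟨mem_univ _, h2.2, (mem_filter.1 hk).2⟩
      · rintro ⟨-, h2, h3⟩
        have h4 : p ∈ univ.image j := by
          rw [himg, mem_product]
          exact ⟨mem_univ _, h2⟩
        obtain ⟨k, -, hk⟩ := mem_image.1 h4
        refine ⟨k, mem_filter.2 ⟨mem_univ _, ?_⟩, hk⟩
        rw [hk]
        exact h3
    rw [← card_image_of_injective _ hj, h1, card_product, card_univ, Fintype.card_fin]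
  rw [hk, hD, ← hpart]
  ring

end Pool.Agent.H97.TV
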