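import Pool.Agent.H97.FB.Defs2
import Pool.Agent.H97.FB.ANR

/-! # [H97 TV RVI] The reversed family: involution, irreducibility, fibres -/

namespace Pool.Agent.H97.TV

open Finset Polynomial Pool.Agent.H87.SA2 Pool.Agent.H97.FB

variable {n m : ℕ} {F : ℤ[X][X]}

theorem rvi_coeff (n m : ℕ) (f : ℤ[X][X]) (i : ℕ) :
    (rv n m f).coeff i = if i ≤ n then reflect (m * (n - i)) (f.coeff i) else 0 := by
  split_ifs with h
  · exact rv_coeff h
  · exact rv_coeff' (by omega)

theorem rv_cd (hc : ∀ i, (F.coeff i).natDegree ≤ m * (n - i)) (i : ℕ) :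
    ((rv n m F).coeff i).natDegree ≤ m * (n - i) := by
  rw [rvi_coeff]
  split_ifs with h
  · exact natDegree_reflect_le.trans (max_le le_rfl (hc i))
  · rw [natDegree_zero]
    exact Nat.zero_le _

theorem rv_rv (hd : F.natDegree = n) : rv n m (rv n m F) = F := by
  ext1 i
  rw [rvi_coeff]
  split_ifs with h
  · rw [rvi_coeff, if_pos h, reflect_reflect]
  · rw [coeff_eq_zero_of_natDegree_lt (by omega)]

theorem rv_le {B : ℕ} (hB : ∀ i j, |(F.coeff i).coeff j| ≤ (B : ℤ)) (i j : ℕ) :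
    |((rv n m F).coeff i).coeff j| ≤ (B : ℤ) := by
  rw [rvi_coeff]
  split_ifs with h
  · rw [coeff_reflect]
    exact hB _ _
  · rw [coeff_zero, abs_zero]
    exact Int.natCast_nonneg B

/-- the coefficients of a monic polynomial of degree at most `m` in `t` -/
theorem mon_cd (hF : F.Monic) (hd : F.natDegree = n) (hm : ∀ i, (F.coeff i).natDegree ≤ m) (i : ℕ) :
    (F.coeff i).natDegree ≤ m * (n - i) := by
  rcases lt_trichotomy i n with h | h | h
  · exact (hm i).trans (Nat.le_mul_of_pos_right m (by omega))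
  · subst h
    have h1 : F.coeff i = 1 := by
      rw [← hd]
      exact hF.coeff_natDegree
    rw [h1, natDegree_one]
    exact Nat.zero_le _
  · rw [coeff_eq_zero_of_natDegree_lt (by omega), natDegree_zero]
    exact Nat.zero_le _

/-- the reversal identity, evaluated at units -/
theorem rv_comp {S : Type} [Field S] (φ ψ : ℤ[X] →+* S) (hd : F.natDegree = n)
    (hc : ∀ i, (F.coeff i).natDegree ≤ m * (n - i)) (hX : φ X * ψ X = 1) :
    ((rv n m F).map φ).comp (C (φ X ^ m) * X) = C (φ X ^ (m * n)) * F.map ψ := by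
  ext1 i
  rw [comp_C_mul_X_coeff, coeff_map, coeff_C_mul, coeff_map, rvi_coeff]
  split_ifs with h
  · have hφ : φ = eval₂RingHom (Int.castRingHom S) (φ X) := by
      refine Polynomial.ringHom_ext' ?_ ?_
      · exact RingHom.ext_int _ _
      · rw [coe_eval₂RingHom, eval₂_X]
    have hψ : ψ = eval₂RingHom (Int.castRingHom S) (ψ X) := by
      refine Polynomial.ringHom_ext' ?_ ?_
      · exact RingHom.ext_int _ _
      · rw [coe_eval₂RingHom, eval₂_X]
    have hψ0 : ψ X ≠ 0 := right_ne_zero_of_mul_eq_one hX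
    have hφ0 : φ X ≠ 0 := left_ne_zero_of_mul_eq_one hX
    let _ : Invertible (ψ X) := invertibleOfNonzero hψ0
    have h3 := eval₂_reflect_mul_pow (Int.castRingHom S) (ψ X) (m * (n - i)) (F.coeff i) (hc i)
    have h6 : ⅟(ψ X) = φ X := by
      rw [invOf_eq_inv, eq_comm]
      exact eq_inv_of_mul_eq_one_left hX
    rw [h6] at h3
    have h7 : φ (reflect (m * (n - i)) (F.coeff i)) * ψ X ^ (m * (n - i)) = ψ (F.coeff i) := by
      conv_lhs => rw [hφ]
      conv_rhs => rw [hψ]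
      rw [coe_eval₂RingHom, coe_eval₂RingHom]
      exact h3
    have h8 : φ X ^ (m * n) = (φ X ^ m) ^ i * φ X ^ (m * (n - i)) := by
      rw [← pow_mul, ← pow_add, ← mul_add, Nat.add_sub_cancel' h]
    rw [h8, ← h7]
    have h9 : φ X ^ (m * (n - i)) * ψ X ^ (m * (n - i)) = 1 := by
      rw [← mul_pow, hX, one_pow]
    calc φ (reflect (m * (n - i)) (F.coeff i)) * (φ X ^ m) ^ i
        = φ (reflect (m * (n - i)) (F.coeff i)) * (φ X ^ m) ^ i *
          (φ X ^ (m * (n - i)) * ψ X ^ (m * (n - i))) := by rw [h9, mul_one]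
      _ = _ := by ring
  · rw [coeff_eq_zero_of_natDegree_lt (by omega : F.natDegree < i), map_zero, map_zero, zero_mul,
      mul_zero]

/-- scaling preserves irreducibility -/
theorem irr_scale {S : Type} [Field S] {p q : S[X]} {c u : S} (hc : c ≠ 0) (hu : u ≠ 0)
    (h : p.comp (C c * X) = C u * q) (hq : Irreducible q) : Irreducible p := by
  let _ : Invertible c := invertibleOfNonzero hc
  have h3 : Irreducible (p.comp (C c * X)) := by
    rw [h]
    exact (irreducible_isUnit_mul (isUnit_C.2 (isUnit_iff_ne_zero.2 hu))).2 hq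
  have h5 : (algEquivCMulXAddC c (0 : S)).toMulEquiv p = p.comp (C c * X) := by
    show (algEquivCMulXAddC c (0 : S)) p = _
    rw [algEquivCMulXAddC_apply, map_zero, add_zero, comp_eq_aeval]
  rw [← h5] at h3
  exact (MulEquiv.irreducible_iff (algEquivCMulXAddC c (0 : S)).toMulEquiv).1 h3

/-- the fibre -/
noncomputable def fibQ (F : ℤ[X][X]) (a : ℕ) : ℚ[X] :=
  F.map (eval₂RingHom (Int.castRingHom ℚ) (1 / (a : ℚ)))

theorem fib_comp (hd : F.natDegree = n) (hc : ∀ i, (F.coeff i).natDegree ≤ m * (n - i)) {a : ℕ}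
    (ha : 1 ≤ a) : ((fa (rv n m F) a).map (Int.castRingHom ℚ)).comp (C ((a : ℚ) ^ m) * X) =
      C ((a : ℚ) ^ (m * n)) * fibQ F a := by
  have ha0 : (a : ℚ) ≠ 0 := by exact_mod_cast (by omega : a ≠ 0)
  have h1 := rv_comp (S := ℚ) (eval₂RingHom (Int.castRingHom ℚ) (a : ℚ))
    (eval₂RingHom (Int.castRingHom ℚ) (1 / (a : ℚ))) hd hc (by
      rw [coe_eval₂RingHom, coe_eval₂RingHom, eval₂_X, eval₂_X, mul_one_div_cancel ha0])
  rw [coe_eval₂RingHom, eval₂_X] at h1
  unfold fibQ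
  rw [← h1]
  congr 1
  unfold fa
  rw [Polynomial.map_map]
  congr 1
  refine Polynomial.ringHom_ext (fun z => ?_) ?_
  · simp
  · simp

theorem fib_irr (hd : F.natDegree = n) (hc : ∀ i, (F.coeff i).natDegree ≤ m * (n - i)) {a : ℕ}
    (ha : 1 ≤ a) (h : Irreducible (fibQ F a)) :
    Irreducible ((fa (rv n m F) a).map (Int.castRingHom ℚ)) := by
  have ha0 : (a : ℚ) ≠ 0 := by exact_mod_cast (by omega : a ≠ 0)
  exact irr_scale (pow_ne_zero _ ha0) (pow_ne_zero _ ha0) (fib_comp hd hc ha) h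

theorem fib_root (hd : F.natDegree = n) (hc : ∀ i, (F.coeff i).natDegree ≤ m * (n - i)) {a : ℕ}
    (ha : 1 ≤ a) {K : Type} [Field K] [CharZero K] {θ : K} (h : aeval θ (fibQ F a) = 0) :
    aeval ((a : K) ^ m * θ) (fa (rv n m F) a) = 0 := by
  have h1 := congrArg (fun p => aeval θ p) (fib_comp (m := m) hd hc ha)
  simp only [aeval_comp, map_mul, aeval_C, aeval_X, h, mul_zero] at h1
  have h2 := aeval_map_algebraMap ℚ ((algebraMap ℚ K) ((a : ℚ) ^ m) * θ) (fa (rv n m F) a)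
  rw [algebraMap_int_eq] at h2
  rw [h2] at h1
  rw [map_pow, map_natCast] at h1
  exact h1

/-- the automorphism `t ↦ 1/t` of `ℂ(t)` -/
theorem exists_inv : ∃ τ : FractionRing ℂ[X] ≃+* FractionRing ℂ[X],
    (∀ c : ℂ, τ (algebraMap ℂ[X] _ (C c)) = algebraMap ℂ[X] _ (C c)) ∧
    τ (algebraMap ℂ[X] _ X) = (algebraMap ℂ[X] (FractionRing ℂ[X]) X)⁻¹ := by
  obtain ⟨ι, hι⟩ : ∃ ι : ℂ[X] →+* FractionRing ℂ[X], ι = algebraMap ℂ[X] (FractionRing ℂ[X]) :=
    ⟨_, rfl⟩
  have hinj : Function.Injective ι := by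
    rw [hι]
    exact IsFractionRing.injective _ _
  have hx : ι X ≠ 0 := by
    rw [Ne, map_eq_zero_iff ι hinj]
    exact X_ne_zero
  obtain ⟨g, hg⟩ : ∃ g : ℂ[X] →+* FractionRing ℂ[X], g = eval₂RingHom (ι.comp C) (ι X)⁻¹ :=
    ⟨_, rfl⟩
  have hgC : ∀ c, g (C c) = ι (C c) := fun c => by
    rw [hg, coe_eval₂RingHom, eval₂_C]
    rfl
  have hgX : g X = (ι X)⁻¹ := by rw [hg, coe_eval₂RingHom, eval₂_X]
  have hginj : Function.Injective g := by
    rw [injective_iff_map_eq_zero]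
    intro p hp
    rw [hg, coe_eval₂RingHom] at hp
    let _ : Invertible (ι X)⁻¹ := invertibleOfNonzero (inv_ne_zero hx)
    have h1 := (eval₂_reflect_eq_zero_iff (ι.comp C) (ι X)⁻¹ p.natDegree p le_rfl).2 hp
    rw [invOf_eq_inv, inv_inv] at h1
    have h2 : ∀ r : ℂ[X], eval₂ (ι.comp C) (ι X) r = ι r := by
      intro r
      have h3 := Polynomial.hom_eval₂ r C ι X
      rw [eval₂_C_X] at h3
      exact h3.symm
    rw [h2, map_eq_zero_iff ι hinj, reflect_eq_zero_iff] at h1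
    exact h1
  obtain ⟨τ, hτ⟩ : ∃ τ : FractionRing ℂ[X] →+* FractionRing ℂ[X],
      τ = IsFractionRing.lift (K := FractionRing ℂ[X]) hginj := ⟨_, rfl⟩
  have hτa : ∀ p, τ (ι p) = g p := fun p => by
    rw [hτ, hι]
    exact IsFractionRing.lift_algebraMap (K := FractionRing ℂ[X]) hginj p
  have hττ : τ.comp τ = RingHom.id _ := by
    refine IsLocalization.ringHom_ext (nonZeroDivisors ℂ[X]) ?_
    rw [← hι]
    refine Polynomial.ringHom_ext (fun c => ?_) ?_
    · rw [RingHom.comp_apply, RingHom.comp_apply, hτa, hgC, hτa, hgC]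
      rfl
    · rw [RingHom.comp_apply, RingHom.comp_apply, hτa, hgX, map_inv₀, hτa, hgX, inv_inv]
      rfl
  refine ⟨RingEquiv.ofRingHom τ τ hττ hττ, fun c => ?_, ?_⟩
  · show τ _ = _
    rw [← hι, hτa, hgC]
  · show τ _ = _
    rw [← hι, hτa, hgX]

/-- the reversed family is irreducible -/
theorem rv_irrC (hn : 1 ≤ n) (hF : F.Monic) (hd : F.natDegree = n)
    (hc : ∀ i, (F.coeff i).natDegree ≤ m * (n - i))
    (h : Irreducible (F.map (mapRingHom (Int.castRingHom ℂ)))) :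
    Irreducible ((rv n m F).map (mapRingHom (Int.castRingHom ℂ))) := by
  obtain ⟨τ, hτC, hτX⟩ := exists_inv
  obtain ⟨ι, hι⟩ : ∃ ι : ℂ[X] →+* FractionRing ℂ[X], ι = algebraMap ℂ[X] (FractionRing ℂ[X]) :=
    ⟨_, rfl⟩
  have hinj : Function.Injective ι := by
    rw [hι]
    exact IsFractionRing.injective _ _
  have hx : ι X ≠ 0 := by
    rw [Ne, map_eq_zero_iff ι hinj]
    exact X_ne_zero
  obtain ⟨φ, hφ⟩ : ∃ φ : ℤ[X] →+* FractionRing ℂ[X],
      φ = ι.comp (mapRingHom (Int.castRingHom ℂ)) := ⟨_, rfl⟩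
  have hφX : φ X = ι X := by
    rw [hφ, RingHom.comp_apply, coe_mapRingHom, map_X]
  have h1 := rv_comp (m := m) φ ((τ : FractionRing ℂ[X] →+* FractionRing ℂ[X]).comp φ) hd hc (by
    rw [RingHom.comp_apply, hφX]
    have h2 : (τ : FractionRing ℂ[X] →+* FractionRing ℂ[X]) (ι X) = (ι X)⁻¹ := by
      rw [hι]
      exact hτX
    rw [h2, mul_inv_cancel₀ hx])
  have h2 : Irreducible ((F.map (mapRingHom (Int.castRingHom ℂ))).map ι) := by
    rw [hι]
    exact ((hF.map _).irreducible_iff_irreducible_map_fraction_map).1 h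
  have h3 : Irreducible (F.map ((τ : FractionRing ℂ[X] →+* FractionRing ℂ[X]).comp φ)) := by
    rw [← Polynomial.map_map, hφ, ← Polynomial.map_map]
    exact (MulEquiv.irreducible_iff (Polynomial.mapEquiv τ).toMulEquiv).2 h2
  have h4 := irr_scale (pow_ne_zero m (hφX ▸ hx)) (pow_ne_zero (m * n) (hφX ▸ hx)) h1 h3
  rw [hφ, ← Polynomial.map_map, hι] at h4
  have hm : (rv n m F).Monic := rv_monic hF hd
  exact ((hm.map _).irreducible_iff_irreducible_map_fraction_map).2 h4

end Pool.Agent.H97.TV
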