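import Pool.Agent.H97.TU.Defs2
import Pool.Agent.H37.TU.CNT

/-!
# MP_821da1_nt, THEOREM V: all one-parameter families: definitions

As THEOREM U+, for arbitrary families `Fm : FamB n m B f` (any ramification at `t = ∞`, no condition on the
centre).
`PrmB pd σ π`: `π` is the permutation of the branches at infinity by `σ` and a rotation.
`TauG θ pd P`: the branches of the twisted curve `P` carry permutations (bijections between the roots `θ` of
the fibre and the branches at infinity of the family); the near branch carries the identity.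
`OrbD pd s β l`: a set `S` of at most `s` branches at infinity, stable under `PrmB`, which contains `l`, and an
equivariant function `ρ` on it with `ρ l = β`.
`BadV`: a bad fibre.
-/

namespace Pool.Agent.H97.TV

open Finset Polynomial Pool.Agent.H72.ES Pool.Agent.H87.SA Pool.Agent.H87.SA2 Pool.Agent.H87.AX
  Pool.Agent.H8.AW Pool.Agent.H52.AC Pool.Agent.H97.NW Pool.Agent.H34.AC Pool.Agent.H97.FB
  Pool.Agent.H97.FC Pool.Agent.H37.TU Pool.Agent.H97.TU

/-- the permutation of the branches at infinity by `σ` and a rotation -/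
def PrmB {g : ℤ[X][X]} {n : ℕ} (pd : PData g n) (σ : AA →+* ℂ) (π : Equiv.Perm (Fin n)) : Prop :=
  ∃ ξ : ℂ, ξ ^ pd.e = 1 ∧ ∀ (u : Fin n) (k : ℕ) (a : AA),
    (a : ℂ) = PowerSeries.coeff k (pd.x u) → ξ ^ k * σ a = PowerSeries.coeff k (pd.x (π u))

/-- the identity embedding -/
noncomputable def idA : AA →+* ℂ := algebraMap AA ℂ

/-- the branches carry permutations, the near branch carries the identity; `θ` is the list of the roots of
the fibre, `pd` the list of the branches at infinity of the family -/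
def TauG {g : ℤ[X][X]} {n nu : ℕ} (θ : Fin n → ℂ) (pd : PData g n) (p : Ptd nu) : Prop :=
  ∃ tau : Fin p.d → Equiv.Perm (Fin n), tau p.i = 1 ∧
    (∀ (σ : AA →+* ℂ) (ν : Equiv.Perm (Fin n)), Prm θ σ ν → ∀ i j : Fin p.d,
      (∀ k : ℕ, Cj σ (PowerSeries.coeff k (p.C.pd.x i)) (PowerSeries.coeff k (p.C.pd.x j))) →
      ∃ π, PrmB pd σ π ∧ tau j = ν * tau i * π⁻¹) ∧
    ∀ ζ : ℂ, ζ ^ p.C.pd.e = 1 → ∀ i j : Fin p.d,
      PowerSeries.rescale ζ (p.C.pd.x i) = p.C.pd.x j → ∃ π, PrmB pd idA π ∧ tau j = tau i * π⁻¹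

/-- a stable set of at most `s` branches with an equivariant function -/
structure OrbD {g : ℤ[X][X]} {n : ℕ} (pd : PData g n) (s : ℕ) (β : ℂ) (l : Fin n) where
  S : Finset (Fin n)
  ρ : Fin n → ℂ
  mem : l ∈ S
  val : ρ l = β
  card : S.card ≤ s
  gal : ∀ (σ : AA →+* ℂ) (π : Equiv.Perm (Fin n)), PrmB pd σ π → ∀ u ∈ S,
    π u ∈ S ∧ Cj σ (ρ u) (ρ (π u))

/-- a bad fibre -/
structure BadV (n m ν c s : ℕ) (R1 : ℝ) (β : ℂ) where
  a : ℕ
  b : ℕ
  f : ℤ[X][X]
  Fm : FamB n m b f
  l : Fin n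
  O : Nonempty (OrbD Fm.pd s β l)
  P : Ptd ν
  L : Nonempty (LbG P (v1 (thA Fm.pd m a)) l)
  irr : Irreducible ((fa f a).map (Int.castRingHom ℚ))
  ba : b ^ c ≤ a
  thr : P.Thr c
  big : R1 * Real.log a ≤ P.ell
  a1 : 1 ≤ a

end Pool.Agent.H97.TV
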