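import Pool.Agent.H97.TV.Defs

/-!
# MP_821da1_nt, THEOREM V': reducible fibres: definitions

`TauE θ pd P`: as `TauG`, and for every branch `u` at infinity of the family and every root `θ w` of the
fibre at most the `n`-th part of the branches of the twisted curve `P` carries a permutation `τ` with
`τ u = w`.
`BadW`: as `BadV`, the fibre may be reducible.
-/

namespace Pool.Agent.H97.TV

open Finset Polynomial Pool.Agent.H72.ES Pool.Agent.H87.SA Pool.Agent.H87.SA2 Pool.Agent.H87.AX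
  Pool.Agent.H8.AW Pool.Agent.H52.AC Pool.Agent.H97.NW Pool.Agent.H34.AC Pool.Agent.H97.FB
  Pool.Agent.H97.FC Pool.Agent.H37.TU Pool.Agent.H97.TU

/-- the branches carry equidistributed permutations, the near branch carries the identity -/
def TauE {g : ℤ[X][X]} {n nu : ℕ} (θ : Fin n → ℂ) (pd : PData g n) (p : Ptd nu) : Prop :=
  ∃ tau : Fin p.d → Equiv.Perm (Fin n), tau p.i = 1 ∧
    (∀ (σ : AA →+* ℂ) (ν : Equiv.Perm (Fin n)), Prm θ σ ν → ∀ i j : Fin p.d,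
      (∀ k : ℕ, Cj σ (PowerSeries.coeff k (p.C.pd.x i)) (PowerSeries.coeff k (p.C.pd.x j))) →
      ∃ π, PrmB pd σ π ∧ tau j = ν * tau i * π⁻¹) ∧
    (∀ ζ : ℂ, ζ ^ p.C.pd.e = 1 → ∀ i j : Fin p.d,
      PowerSeries.rescale ζ (p.C.pd.x i) = p.C.pd.x j →
      ∃ π, PrmB pd idA π ∧ tau j = tau i * π⁻¹) ∧
    ∀ u w : Fin n, n * (univ.filter fun j => tau j u = w).card ≤ p.d

theorem TauE.tauG {g : ℤ[X][X]} {n nu : ℕ} {θ : Fin n → ℂ} {pd : PData g n} {p : Ptd nu}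
    (h : TauE θ pd p) : TauG θ pd p := by
  obtain ⟨tau, h1, h2, h3, -⟩ := h
  exact ⟨tau, h1, h2, h3⟩

/-- a bad fibre, possibly reducible -/
structure BadW (n m ν c s : ℕ) (R1 : ℝ) (β : ℂ) where
  a : ℕ
  b : ℕ
  f : ℤ[X][X]
  Fm : FamB n m b f
  l : Fin n
  O : Nonempty (OrbD Fm.pd s β l)
  P : Ptd ν
  L : Nonempty (LbG P (v1 (thA Fm.pd m a)) l)
  ba : b ^ c ≤ a
  thr : P.Thr c
  big : R1 * Real.log a ≤ P.ell
  a1 : 1 ≤ a

end Pool.Agent.H97.TV
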