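import Mathlib

/-! # [H97 TV EQA] Equidistribution of the labels: Galois theory

`f` irreducible over `K` with roots `z u` in `L ⊇ K`, `y τ = ∑_v w (τ v) z_v + c`, `w, c` over `K`. The set of
the permutations `τ` for which `y τ` is a root of `G ∈ K[X]` is stable under `τ ↦ τ π⁻¹`, `π` in a transitive
group; so for every `u, w0` exactly the `n`-th part of them has `τ u = w0`. -/

namespace Pool.Agent.H97.TV

open Finset Polynomial

/-- the twisted sum -/
noncomputable def ySum {K L : Type*} [Field K] [Field L] [Algebra K L] {n : ℕ} (z : Fin n → L)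
    (w : Fin n → K) (c : K) (τ : Equiv.Perm (Fin n)) : L :=
  ∑ v, algebraMap K L (w (τ v)) * z v + algebraMap K L c

/-- a transitive group acts -/
theorem eq_perm {K L : Type*} [Field K] [Field L] [Algebra K L] {n : ℕ} {f : K[X]}
    (hf : Irreducible f) (z : Fin n → L) (hs : f.map (algebraMap K L) = ∏ u, (X - C (z u)))
    (hz : Function.Injective z) (u u' : Fin n) : ∃ π : Equiv.Perm (Fin n), π u = u' ∧
      ∀ (w : Fin n → K) (c : K) (G : K[X]) (τ : Equiv.Perm (Fin n)),
        aeval (ySum z w c τ) G = 0 → aeval (ySum z w c (τ * π⁻¹)) G = 0 := by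
  classical
  have hf0 : f.map (algebraMap K L) ≠ 0 := by
    rw [hs]
    exact prod_ne_zero_iff.2 fun u _ => X_sub_C_ne_zero _
  have hsplit : (f.map (algebraMap K L)).Splits := by
    rw [hs]
    exact Splits.prod fun u _ => Splits.X_sub_C _
  have hroot : ∀ x : L, aeval x f = 0 ↔ ∃ v, x = z v := by
    intro x
    rw [aeval_def, ← eval_map, hs, eval_prod, prod_eq_zero_iff]
    constructor
    · rintro ⟨v, -, hv⟩
      rw [eval_sub, eval_X, eval_C, sub_eq_zero] at hv
      exact ⟨v, hv⟩
    · rintro ⟨v, rfl⟩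
      exact ⟨v, mem_univ _, by rw [eval_sub, eval_X, eval_C, sub_self]⟩
  have hfn : f ≠ 0 := hf.ne_zero
  obtain ⟨E, hE⟩ : ∃ E : IntermediateField K L, E = IntermediateField.adjoin K (f.rootSet L) :=
    ⟨_, rfl⟩
  have hSF : IsSplittingField K E f := by
    rw [hE]
    exact IntermediateField.adjoin_rootSet_isSplittingField hsplit
  have hN : Normal K E := Normal.of_isSplittingField f
  have hmem : ∀ v, z v ∈ E := by
    intro v
    rw [hE]
    apply IntermediateField.subset_adjoin
    rw [mem_rootSet]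
    exact ⟨hfn, (hroot _).2 ⟨v, rfl⟩⟩
  have halg : ∀ v, IsAlgebraic K (⟨z v, hmem v⟩ : E) := fun v =>
    Algebra.IsAlgebraic.isAlgebraic _
  have hae : ∀ v, aeval (⟨z v, hmem v⟩ : E) f = 0 := by
    intro v
    have h1 := (hroot (z v)).2 ⟨v, rfl⟩
    have h2 : aeval (algebraMap E L ⟨z v, hmem v⟩) f = 0 := h1
    rw [aeval_algebraMap_apply] at h2
    exact (map_eq_zero_iff _ (algebraMap E L).injective).1 h2
  obtain ⟨σ, hσ⟩ : ∃ σ : E ≃ₐ[K] E, σ ⟨z u, hmem u⟩ = ⟨z u', hmem u'⟩ := by
    refine minpoly.exists_algEquiv_of_root' (halg u) ?_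
    have h1 := minpoly.eq_of_irreducible hf (hae u)
    rw [← h1, map_mul, hae u', zero_mul]
  have hp : ∀ v, ∃ v', (σ ⟨z v, hmem v⟩ : L) = z v' := by
    intro v
    refine (hroot _).1 ?_
    have h1 : aeval (algebraMap E L (σ ⟨z v, hmem v⟩)) f = 0 := by
      rw [aeval_algebraMap_apply]
      have h2 : aeval (σ ⟨z v, hmem v⟩) f = 0 := by
        have h3 := aeval_algHom_apply (σ : E →ₐ[K] E) ⟨z v, hmem v⟩ f
        rw [hae v, map_zero] at h3
        exact h3
      rw [h2, map_zero]
    exact h1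
  choose p hp using hp
  have hinj : Function.Injective p := by
    intro v v' h
    have h1 : (σ ⟨z v, hmem v⟩ : L) = σ ⟨z v', hmem v'⟩ := by rw [hp, hp, h]
    have h2 := σ.injective (Subtype.ext h1)
    exact hz (congrArg Subtype.val h2)
  obtain ⟨π, hπ⟩ : ∃ π : Equiv.Perm (Fin n), ∀ v, π v = p v :=
    ⟨Equiv.ofBijective p (Finite.injective_iff_bijective.1 hinj), fun v => rfl⟩
  refine ⟨π, ?_, ?_⟩
  · apply hz
    rw [hπ, ← hp, hσ]
  intro w c G τ h
  obtain ⟨y, hy⟩ : ∃ y : E, y = ∑ v, algebraMap K E (w (τ v)) * ⟨z v, hmem v⟩ + algebraMap K E c :=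
    ⟨_, rfl⟩
  have hy1 : (y : L) = ySum z w c τ := by
    rw [hy]
    unfold ySum
    push_cast
    rfl
  have hy2 : (σ y : L) = ySum z w c (τ * π⁻¹) := by
    have h1 : σ y = ∑ v, algebraMap K E (w (τ v)) * σ ⟨z v, hmem v⟩ + algebraMap K E c := by
      rw [hy, map_add, map_sum, AlgEquiv.commutes]
      congr 1
      exact sum_congr rfl fun v _ => by rw [map_mul, AlgEquiv.commutes]
    rw [h1]
    unfold ySum
    rw [← Equiv.sum_comp π fun v => algebraMap K L (w ((τ * π⁻¹) v)) * z v]
    push_cast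
    congr 1
    refine sum_congr rfl fun v _ => ?_
    rw [hp v, ← hπ v]
    congr 3
    simp
  have h3 : aeval y G = 0 := by
    have h4 : aeval (algebraMap E L y) G = 0 := by
      have h5 : algebraMap E L y = ySum z w c τ := hy1
      rw [h5]
      exact h
    rw [aeval_algebraMap_apply] at h4
    exact (map_eq_zero_iff _ (algebraMap E L).injective).1 h4
  have h4 : aeval (σ y) G = 0 := by
    have h5 := aeval_algHom_apply (σ : E →ₐ[K] E) y G
    rw [h3, map_zero] at h5
    exact h5
  rw [← hy2]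
  have h6 : aeval (algebraMap E L (σ y)) G = 0 := by
    rw [aeval_algebraMap_apply, h4, map_zero]
  exact h6

/-- the `n`-th part -/
theorem eq_part {K L : Type*} [Field K] [Field L] [Algebra K L] {n : ℕ} {f : K[X]}
    (hf : Irreducible f) (z : Fin n → L) (hs : f.map (algebraMap K L) = ∏ u, (X - C (z u)))
    (hz : Function.Injective z) (w : Fin n → K) (c : K) (G : K[X])
    (J : Finset (Equiv.Perm (Fin n))) (hJ : ∀ τ, τ ∈ J ↔ aeval (ySum z w c τ) G = 0)
    (u w0 : Fin n) : n * (J.filter fun τ => τ u = w0).card = J.card := by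
  classical
  have hle : ∀ u u', (J.filter fun τ => τ u = w0).card ≤ (J.filter fun τ => τ u' = w0).card := by
    intro u u'
    obtain ⟨π, hπ, h⟩ := eq_perm hf z hs hz u u'
    refine card_le_card_of_injOn (fun τ => τ * π⁻¹) ?_ ?_
    · intro τ hτ
      obtain ⟨h1, h2⟩ := mem_filter.1 (mem_coe.1 hτ)
      refine mem_coe.2 (mem_filter.2 ⟨(hJ _).2 (h w c G τ ((hJ τ).1 h1)), ?_⟩)
      rw [← h2, ← hπ]
      simp
    · intro τ _ τ' _ h1
      exact mul_right_cancel h1
  have h1 : ∀ u', (J.filter fun τ => τ u' = w0).card = (J.filter fun τ => τ u = w0).card :=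
    fun u' => le_antisymm (hle _ _) (hle _ _)
  have h2 : ∑ u', (J.filter fun τ => τ u' = w0).card = J.card := by
    have h3 : J.card = ∑ u' : Fin n, (J.filter fun τ => τ⁻¹ w0 = u').card :=
      card_eq_sum_card_fiberwise fun x _ => mem_univ _
    rw [h3]
    refine sum_congr rfl fun u' _ => ?_
    congr 1
    ext τ
    rw [mem_filter, mem_filter]
    refine and_congr_right fun _ => ?_
    rw [Equiv.Perm.inv_eq_iff_eq]
    exact eq_comm
  rw [← h2, sum_congr rfl fun u' _ => h1 u', sum_const, card_univ, Fintype.card_fin, smul_eq_mul]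

end Pool.Agent.H97.TV
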