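import Pool.Agent.H97.TV.Defs
import Pool.Agent.H98.MR.Defs
import Pool.Agent.H98.TY.TYG

/-! # [H97 TV TWV] The twisted curve of a fibre of an arbitrary family (helper87)

`pd = Fm.pd`, `e = pd.e`, `s = 1/t = (q T)^e`. Base coordinate `X' = t^m`, `1/X' = (q T)^(e m)`, `P.x = a^m`,
`y = ∑_u w_(τ u) z_u(t) + mu t`, branches `(i, τ)`, `i < m`:
`rescale (ω^i) (Zt w x τ + C mu * (C q * X)^(e (m-1)))`, `ω = exp (2 π I / (e m))`. Reduce `pd` first to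
minimal `e` (`x_u ∈ ℂ[[T^k]]` for all `u`, `k ∣ e`: replace `e, q` by `e/k, q^k`), so that the rotations of the
branch `(0, 1)` by the `e m`-th roots of unity are different and `e m ≤ D`. -/

namespace Pool.Agent.H97.TV

open Finset Polynomial Pool.Agent.H72.ES Pool.Agent.H87.SA Pool.Agent.H87.SA2 Pool.Agent.H87.AX
  Pool.Agent.H8.AW Pool.Agent.H52.AC Pool.Agent.H97.NW Pool.Agent.H34.AC Pool.Agent.H97.FB
  Pool.Agent.H97.FC Pool.Agent.H37.TU Pool.Agent.H97.TU Pool.Agent.H98.MR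

theorem exists_twV (n m : ℕ) (hn : 2 ≤ n) (hm : 1 ≤ m) : ∃ κ : ℕ, 1 ≤ κ ∧ ∀ c : ℕ, ∃ C : ℕ,
    ∀ (B : ℕ) (f : ℤ[X][X]) (Fm : FamB n m B f) (a : ℕ), B ^ C ≤ a → ∀ ν : ℕ,
    m * n.factorial ≤ ν → ∃ P : Ptd ν, P.x = ((a ^ m : ℕ) : ℤ) ∧ Rlx κ c P ∧
      TauG (thA Fm.pd m a) Fm.pd P :=
  Pool.Agent.H98.TY.exists_tyV n m hn hm

end Pool.Agent.H97.TV
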