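import Pool.Agent.H97.TU.FRA
import Pool.Agent.H97.TV.SCV
import Pool.Agent.H97.TV.TWV
import Pool.Agent.H98.MR.RTH
import Pool.Agent.H97.FB.THA

/-! # [H97 TV FRV] The lacunary theorem for the fibres of arbitrary families (assembly, helper98)

As `Pool/Agent/H97/TU/FRA.lean`, `FRU.lean`, with `stab_count3` (`SCV.lean`, helper37) and
`exists_twV` (`TWV.lean`, helper87). -/

namespace Pool.Agent.H97.TV

open Finset Polynomial Pool.Agent.H72.ES Pool.Agent.H87.SA Pool.Agent.H87.SA2 Pool.Agent.H87.AX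
  Pool.Agent.H8.AW Pool.Agent.H52.AC Pool.Agent.H97.NW Pool.Agent.H34.AC Pool.Agent.H97.FB
  Pool.Agent.H97.FC Pool.Agent.H37.TU Pool.Agent.H97.TU Pool.Agent.H98.MR

/-- the order of the sizes -/
private theorem order_aux {M : ℕ} {R : ℝ} (hR : 1 ≤ R) (x a : Fin M → ℝ) (ha : ∀ v, 0 ≤ a v)
    (h1 : ∀ v, R * a v ≤ x v) (h2 : ∀ v w, v < w → R * x v ≤ a w) (ℓ : Fin (2 * M) → ℝ)
    (hc : ∀ v, ℓ (cv v) = x (Fin.rev v)) (hd : ∀ v, ℓ (an v) = a (Fin.rev v)) :
    ∀ i j : Fin (2 * M), i < j → R * ℓ j ≤ ℓ i := by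
  have hx : ∀ v, a v ≤ x v := fun v => (le_mul_of_one_le_left (ha v) hR).trans (h1 v)
  have hx0 : ∀ v, 0 ≤ x v := fun v => (ha v).trans (hx v)
  have h3 : ∀ v w, v < w → R * a v ≤ a w := fun v w hvw =>
    ((h1 v).trans (le_mul_of_one_le_left (hx0 v) hR)).trans (h2 v w hvw)
  have h4 : ∀ v w, v < w → R * x v ≤ x w := fun v w hvw => (h2 v w hvw).trans (hx w)
  intro i j hij
  rcases exists_cv_an i with ⟨v, rfl⟩ | ⟨v, rfl⟩ <;> rcases exists_cv_an j with ⟨w, rfl⟩ | ⟨w, rfl⟩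
  · rw [hc, hc]
    apply h4
    rw [Fin.rev_lt_rev]
    simp only [cv, Fin.mk_lt_mk] at hij
    exact Fin.lt_def.2 (by omega)
  · rw [hc, hd]
    simp only [cv, an, Fin.mk_lt_mk] at hij
    rcases eq_or_ne v w with h | h
    · rw [h]
      exact h1 _
    · have h5 : v < w := Fin.lt_def.2 (by
        have : v.val ≠ w.val := fun h' => h (Fin.ext h')
        omega)
      exact (h3 _ _ (Fin.rev_lt_rev.2 h5)).trans (hx _)
  · rw [hc, hd]
    simp only [cv, an, Fin.mk_lt_mk] at hij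
    exact h2 _ _ (Fin.rev_lt_rev.2 (Fin.lt_def.2 (by omega)))
  · rw [hd, hd]
    simp only [an, Fin.mk_lt_mk] at hij
    exact h3 _ _ (Fin.rev_lt_rev.2 (Fin.lt_def.2 (by omega)))

/-- the abstract form -/
theorem farB (n r s M ν κ : ℕ) (hM : 1 ≤ M) (hν : 4 ≤ ν) (hnum : Num M n r s) :
    ∃ (R1 : ℝ) (c : ℕ), 1 ≤ R1 ∧ ∀ (gs : Fin M → ℤ[X]) (θ : Fin M → Fin n → ℂ)
      (fs : Fin M → ℤ[X][X]) (pd : ∀ v, PData (fs v) n) (q : ℚ[X]) (β : ℂ) (l : Fin M → Fin n),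
      Irreducible q → q.natDegree = r → aeval β q = 0 → (∀ v, (gs v).Monic) →
      (∀ v, Irreducible ((gs v).map (Int.castRingHom ℚ))) → (∀ v, Rts (gs v) (θ v)) →
      ∀ P A : Fin M → Ptd ν, (∀ v, Nonempty (LbG (P v) (v1 (θ v)) (l v))) →
      (∀ v, Nonempty (OrbD (pd v) s β (l v))) → (∀ v, TauG (θ v) (pd v) (A v)) →
      (∀ v, Rlx κ c (P v)) → (∀ v, Rlx κ c (A v)) → (∀ v, 0 ≤ (A v).ell) →
      (∀ v, R1 * (A v).ell ≤ (P v).ell) → (∀ v w, v < w → R1 * (P v).ell ≤ (A w).ell) → False := by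
  classical
  obtain ⟨γ, hγ, hst⟩ := stab_count3 M n r s hnum
  obtain ⟨R, c0, hR, hfar⟩ := far_r (2 * M) ν κ (by omega) hν γ hγ
  refine ⟨R, c0, hR, ?_⟩
  intro gs θ fs pd q β l hq hr hβ hm hirr hθ P0 A hL hO hT hRP hRA hA0 h1 h2
  -- the 2 M pointed curves
  obtain ⟨P, hcv, han⟩ : ∃ P : Fin (2 * M) → Ptd ν, (∀ v, P (cv v) = P0 (Fin.rev v)) ∧
      ∀ v, P (an v) = A (Fin.rev v) := by
    refine ⟨fun v => if v.val % 2 = 0 then
      P0 (Fin.rev ⟨v.val / 2, by have := v.isLt; omega⟩) else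
      A (Fin.rev ⟨v.val / 2, by have := v.isLt; omega⟩), fun v => ?_, fun v => ?_⟩
    · have h1 : (cv v).val % 2 = 0 := by simp only [cv]; omega
      have h2 : (⟨(cv v).val / 2, by have := (cv v).isLt; omega⟩ : Fin M) = v :=
        Fin.ext (by simp only [cv]; omega)
      simp only [if_pos h1, h2]
    · have h1 : ¬ (an v).val % 2 = 0 := by simp only [an]; omega
      have h2 : (⟨(an v).val / 2, by have := (an v).isLt; omega⟩ : Fin M) = v :=
        Fin.ext (by simp only [an]; omega)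
      simp only [if_neg h1, h2]
  obtain ⟨PP, hStb, hnear, hcard⟩ := hst ν P (fun v => gs (Fin.rev v)) (fun v => θ (Fin.rev v))
    (fun v => fs (Fin.rev v)) (fun v => pd (Fin.rev v)) q β (fun v => l (Fin.rev v)) hq hr hβ
    (fun v => hm _) (fun v => hirr _) (fun v => hθ _) (fun v => by rw [hcv]; exact hL _)
    (fun v => hO _) (fun v => by rw [han]; exact hT _)
  refine hfar P PP hStb hnear hcard (fun v => ?_) ?_
  · rcases exists_cv_an v with ⟨w, rfl⟩ | ⟨w, rfl⟩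
    · rw [hcv]
      exact hRP _
    · rw [han]
      exact hRA _
  · exact order_aux hR (fun v => (P0 v).ell) (fun v => (A v).ell) hA0 h1 h2 (fun v => (P v).ell)
      (fun v => by simp only [hcv]) (fun v => by simp only [han])

theorem farV (n m r s M ν : ℕ) (hn : 2 ≤ n) (hm : 1 ≤ m) (hM : 1 ≤ M) (hν : 4 ≤ ν)
    (hnum : Num M n r s) :
    ∃ (R1 : ℝ) (c : ℕ), 1 ≤ R1 ∧ ∀ (q : ℚ[X]) (β : ℂ), Irreducible q → q.natDegree = r →
      aeval β q = 0 → ∀ D : Fin M → BadV n m ν c s R1 β,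
      (∀ v w, v < w → R1 * (D v).P.ell ≤ Real.log (D w).a) → False := by
  classical
  obtain ⟨κ, hκ, htw⟩ := exists_twV n m hn hm
  obtain ⟨ν', hν'⟩ : ∃ ν', ν' = max ν (m * n.factorial) := ⟨_, rfl⟩
  have hν1 : ν ≤ ν' := by rw [hν']; exact le_max_left _ _
  have hν2 : m * n.factorial ≤ ν' := by rw [hν']; exact le_max_right _ _
  obtain ⟨R, c0, hR, hfar⟩ := farB n r s M ν' κ hM (by omega) hnum
  obtain ⟨C1, hC1⟩ := htw c0
  obtain ⟨C2, hC2⟩ := thA_rts n m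
  have hmr : (1 : ℝ) ≤ m := by exact_mod_cast hm
  have hRm : R ≤ R * m := le_mul_of_one_le_right (by linarith) hmr
  refine ⟨R * m, cA ν' + 2 * c0 + C1 + C2, hR.trans hRm, ?_⟩
  intro q β hq hr hβ D hlac
  have hpow : ∀ v, ∀ k ≤ cA ν' + 2 * c0 + C1 + C2, (D v).b ^ k ≤ (D v).a := fun v k hk =>
    (Nat.pow_le_pow_right (by have := (D v).Fm.B2; omega) hk).trans (D v).ba
  have hlog : ∀ v, 0 ≤ Real.log (D v).a := fun v => Real.log_nonneg (by exact_mod_cast (D v).a1)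
  have htwv : ∀ v, ∃ P : Ptd ν', P.x = (((D v).a ^ m : ℕ) : ℤ) ∧ Rlx κ c0 P ∧
      TauG (thA (D v).Fm.pd m (D v).a) (D v).Fm.pd P := fun v =>
    hC1 (D v).b (D v).f (D v).Fm (D v).a (hpow v C1 (by omega)) ν' hν2
  choose A hA1 hA2 hA3 using htwv
  have hell : ∀ v, (A v).ell = m * Real.log (D v).a := by
    intro v
    simp only [Ptd.ell, hA1]
    push_cast
    rw [abs_of_nonneg (by positivity), Real.log_pow]
  refine hfar (fun v => fa (D v).f (D v).a) (fun v => thA (D v).Fm.pd m (D v).a)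
    (fun v => rv n m (D v).f) (fun v => (D v).Fm.pd) q β (fun v => (D v).l) hq hr hβ
    (fun v => (D v).Fm.monic.map _) (fun v => (D v).irr)
    (fun v => hC2 _ _ _ _ (hpow _ C2 (by omega))) (fun v => liftP hν1 (D v).P) A
    (fun v => by
      obtain ⟨L⟩ := (D v).L
      exact liftP_LbG hν1 _ _ _ L) (fun v => (D v).O) hA3 (fun v => ?_) hA2 (fun v => ?_)
    (fun v => ?_) (fun v w hvw => ?_)
  · apply rlx_of_thr (by omega) hκ
    exact (D v).P.thr_mono (by omega) (D v).thr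
  · rw [hell]
    exact mul_nonneg (by positivity) (hlog v)
  · rw [hell, ← mul_assoc]
    exact (D v).big
  · rw [hell]
    have h1 : 0 ≤ (D v).P.ell := (mul_nonneg (by positivity) (hlog v)).trans (D v).big
    have h2 : R * (D v).P.ell ≤ R * m * (D v).P.ell := mul_le_mul_of_nonneg_right hRm h1
    exact (h2.trans (hlac v w hvw)).trans (le_mul_of_one_le_left (hlog w) hmr)

end Pool.Agent.H97.TV
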